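import Mathlib
set_option autoImplicit false

/-!
# Signature functions of iterated torus knots: definitions
-/

namespace Pool.Agent.TH670.KN

/-- The Tristram-Levine signature of the torus knot `T(p,q)` at the point `exp (2 π i x)` of the unit
circle (Brieskorn, Litherland): every pair `(i, j)` with `0 < i < p` and `0 < j < q` contributes `-1`
if `{x} < i / p + j / q < {x} + 1` and `1` otherwise, where `{x}` is the fractional part of `x`. (At
the finitely many `x` for which `exp (2 π i x)` is a root of the Alexander polynomial, the value is
irrelevant.) -/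
noncomputable def sig (p q : ℕ) (x : ℝ) : ℤ :=
  ∑ i ∈ Finset.Ico 1 p, ∑ j ∈ Finset.Ico 1 q,
    if Int.fract x < (i : ℝ) / p + (j : ℝ) / q ∧ (i : ℝ) / p + (j : ℝ) / q < Int.fract x + 1
    then -1 else 1

/-- The Tristram-Levine signature at `exp (2 π i x)` of the iterated torus knot given by the list of
its cabling parameters, the last cabling first: the list `(p, q) :: L` stands for the `(p, q)`-cable
(winding number `p`) of the knot given by `L`, the empty list for the trivial knot. The formula is
Litherland's: `σ_x(K_(p,q)) = σ_x(T(p,q)) + σ_(px)(K)`. -/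
noncomputable def sigK : List (ℕ × ℕ) → ℝ → ℤ
  | [], _ => 0
  | (p, q) :: L, x => sig p q x + sigK L (p * x)

/-- The jump function of `T(p,q)` (half of the jump of the signature function at `x`). -/
noncomputable def J (p q : ℕ) (x : ℝ) : ℤ :=
  ∑ i ∈ Finset.Ico 1 p, ∑ j ∈ Finset.Ico 1 q,
    open scoped Classical in
    if ∃ n : ℤ, x - ((i : ℝ) / p + (j : ℝ) / q) = n then
      (if (i : ℝ) / p + (j : ℝ) / q < 1 then 1 else -1) else 0

/-- The jump function of an iterated torus knot. -/
noncomputable def JK : List (ℕ × ℕ) → ℝ → ℤ
  | [], _ => 0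
  | (p, q) :: L, x => J p q x + JK L (p * x)

end Pool.Agent.TH670.KN
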