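import Mathlib
import Pool.Agent.TH670.KN.Defs
set_option autoImplicit false

/-!
# From signature functions to jump functions
-/

namespace Pool.Agent.TH670.KN

open Filter Topology

/-- The function `F` has the jump `c` at `x`. -/
def HasJump (F : ℝ → ℝ) (x c : ℝ) : Prop :=
  ∀ᶠ ε in 𝓝[>] (0 : ℝ), F (x + ε) - F (x - ε) = c

lemma HasJump.add {F G : ℝ → ℝ} {x c d : ℝ} (hF : HasJump F x c) (hG : HasJump G x d) :
    HasJump (fun y => F y + G y) x (c + d) := by
  filter_upwards [hF, hG] with ε h1 h2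
  linarith

lemma HasJump.const_mul {F : ℝ → ℝ} {x c : ℝ} (a : ℝ) (hF : HasJump F x c) :
    HasJump (fun y => a * F y) x (a * c) := by
  filter_upwards [hF] with ε h1
  rw [← h1]; ring

lemma hasJump_const (a x : ℝ) : HasJump (fun _ => a) x 0 := by
  filter_upwards with ε
  simp

lemma HasJump.sum {ι : Type*} (S : Finset ι) {F : ι → ℝ → ℝ} {x : ℝ} {c : ι → ℝ}
    (h : ∀ s ∈ S, HasJump (F s) x (c s)) :
    HasJump (fun y => ∑ s ∈ S, F s y) x (∑ s ∈ S, c s) := by
  classical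
  induction S using Finset.induction_on with
  | empty => simpa using hasJump_const 0 x
  | insert s S hs ih =>
    simp only [Finset.sum_insert hs]
    exact (h s (Finset.mem_insert_self _ _)).add
      (ih fun t ht => h t (Finset.mem_insert_of_mem ht))

lemma HasJump.comp_mul {F : ℝ → ℝ} {x c : ℝ} {P : ℝ} (hP : 0 < P) (hF : HasJump F (P * x) c) :
    HasJump (fun y => F (P * y)) x c := by
  have ht : Tendsto (fun ε : ℝ => P * ε) (𝓝[>] 0) (𝓝[>] 0) := by
    apply tendsto_nhdsWithin_of_tendsto_nhds_of_eventually_within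
    · have : Tendsto (fun ε : ℝ => P * ε) (𝓝 0) (𝓝 (P * 0)) :=
        (continuous_const.mul continuous_id).tendsto 0
      rw [mul_zero] at this
      exact this.mono_left nhdsWithin_le_nhds
    · filter_upwards [self_mem_nhdsWithin] with ε hε
      exact mul_pos hP hε
  have h2 := ht.eventually hF
  filter_upwards [h2] with ε h
  rw [mul_add, mul_sub]
  exact h

lemma HasJump.congr {F G : ℝ → ℝ} {x c : ℝ} (hF : HasJump F x c)
    (h1 : ∀ᶠ ε in 𝓝[>] (0 : ℝ), F (x + ε) = G (x + ε))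
    (h2 : ∀ᶠ ε in 𝓝[>] (0 : ℝ), F (x - ε) = G (x - ε)) : HasJump G x c := by
  filter_upwards [hF, h1, h2] with ε a b d
  rw [← b, ← d]; exact a

/-- Near `0` (from the right) all positive numbers are smaller than a given positive number. -/
lemma eventually_lt {δ : ℝ} (hδ : 0 < δ) : ∀ᶠ ε in 𝓝[>] (0 : ℝ), 0 < ε ∧ ε < δ := by
  filter_upwards [Ioo_mem_nhdsGT hδ] with ε hε
  exact hε

open scoped Classical in
lemma floor_jump (a : ℝ) : HasJump (fun y => ((⌊y - a⌋ : ℤ) : ℝ)) 0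
    (if ∃ n : ℤ, -a = n then 1 else 0) := by
  by_cases h : ∃ n : ℤ, -a = n
  · obtain ⟨n, hn⟩ := h
    rw [if_pos ⟨n, hn⟩]
    filter_upwards [eventually_lt (δ := 1) one_pos] with ε hε
    have h1 : ⌊(0 : ℝ) + ε - a⌋ = n := by
      rw [Int.floor_eq_iff]; constructor <;> linarith [hε.1, hε.2]
    have h2 : ⌊(0 : ℝ) - ε - a⌋ = n - 1 := by
      rw [Int.floor_eq_iff]; push_cast; constructor <;> linarith [hε.1, hε.2]
    rw [h1, h2]; push_cast; ring
  · rw [if_neg h]
    have h0 : 0 < Int.fract (-a) := by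
      rcases (Int.fract_nonneg (-a)).lt_or_eq with h' | h'
      · exact h'
      · exact absurd ⟨⌊-a⌋, by have := Int.floor_add_fract (-a); linarith⟩ h
    have h1 := Int.fract_lt_one (-a)
    have h3 := Int.floor_add_fract (-a)
    filter_upwards [eventually_lt (δ := min (Int.fract (-a)) (1 - Int.fract (-a)))
      (lt_min h0 (by linarith))] with ε hε
    have hε1 := lt_of_lt_of_le hε.2 (min_le_left _ _)
    have hε2 := lt_of_lt_of_le hε.2 (min_le_right _ _)
    have e1 : ⌊(0 : ℝ) + ε - a⌋ = ⌊-a⌋ := by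
      rw [Int.floor_eq_iff]; constructor <;> linarith [hε.1]
    have e2 : ⌊(0 : ℝ) - ε - a⌋ = ⌊-a⌋ := by
      rw [Int.floor_eq_iff]; constructor <;> linarith [hε.1]
    rw [e1, e2, sub_self]

lemma HasJump.shift {F : ℝ → ℝ} {x c : ℝ} (h : HasJump (fun y => F (y + x)) 0 c) :
    HasJump F x c := by
  filter_upwards [h] with ε hε
  rw [← hε]
  congr 2 <;> ring

open scoped Classical in
lemma floor_jump' (s x : ℝ) : HasJump (fun y => ((⌊y - s⌋ : ℤ) : ℝ)) x
    (if ∃ n : ℤ, x - s = n then 1 else 0) := by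
  apply HasJump.shift
  have h := floor_jump (s - x)
  have e : (-(s - x)) = x - s := by ring
  rw [e] at h
  have e2 : (fun y : ℝ => ((⌊y + x - s⌋ : ℤ) : ℝ)) = fun y => ((⌊y - (s - x)⌋ : ℤ) : ℝ) := by
    funext y; congr 2; ring
  rw [e2]; exact h

/-- one term of the signature -/
noncomputable def term (s : ℝ) (x : ℝ) : ℝ :=
  if Int.fract x < s ∧ s < Int.fract x + 1 then -1 else 1

/-- the sign of a term -/
noncomputable def sg (s : ℝ) : ℝ := if s < 1 then 1 else -1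

/-- Away from the points of `s + ℤ` a term is given by floors. -/
lemma term_eq {s : ℝ} (h0 : 0 < s) (h2 : s < 2) (h1 : s ≠ 1) (y : ℝ)
    (hy : ¬ ∃ n : ℤ, y - s = n) :
    term s y = (if s < 1 then 1 else -3) + 2 * sg s * ((⌊y - s⌋ : ℝ) - (⌊y - 0⌋ : ℝ)) := by
  have hf0 := Int.fract_nonneg y
  have hf1 := Int.fract_lt_one y
  have hfl := Int.floor_add_fract y
  rw [sub_zero]
  unfold term sg
  by_cases hs : s < 1
  · rw [if_pos hs, if_pos hs]
    by_cases hc : Int.fract y < s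
    · rw [if_pos ⟨hc, by linarith⟩]
      have : ⌊y - s⌋ = ⌊y⌋ - 1 := by
        rw [Int.floor_eq_iff]; push_cast; constructor <;> linarith
      rw [this]; push_cast; ring
    · rw [if_neg (fun h => hc h.1)]
      push Not at hc
      have : ⌊y - s⌋ = ⌊y⌋ := by
        rw [Int.floor_eq_iff]; constructor <;> linarith
      rw [this]; ring
  · rw [if_neg hs, if_neg hs]
    have hs' : 1 < s := lt_of_le_of_ne (not_lt.1 hs) (Ne.symm h1)
    by_cases hc : s < Int.fract y + 1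
    · rw [if_pos ⟨by linarith, hc⟩]
      have : ⌊y - s⌋ = ⌊y⌋ - 1 := by
        rw [Int.floor_eq_iff]; push_cast; constructor <;> linarith
      rw [this]; push_cast; ring
    · rw [if_neg (fun h => hc h.2)]
      push Not at hc
      have hne : Int.fract y + 1 ≠ s := by
        intro h
        exact hy ⟨⌊y⌋ - 1, by push_cast; linarith⟩
      have hlt : Int.fract y + 1 < s := lt_of_le_of_ne hc hne
      have : ⌊y - s⌋ = ⌊y⌋ - 2 := by
        rw [Int.floor_eq_iff]; push_cast; constructor <;> linarith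
      rw [this]; push_cast; ring

lemma not_int_near (a : ℝ) : (∀ᶠ ε in 𝓝[>] (0 : ℝ), ¬ ∃ n : ℤ, a + ε = n) ∧
    (∀ᶠ ε in 𝓝[>] (0 : ℝ), ¬ ∃ n : ℤ, a - ε = n) := by
  have hfl := Int.floor_add_fract a
  have hf0 := Int.fract_nonneg a
  have hf1 := Int.fract_lt_one a
  constructor
  · filter_upwards [eventually_lt (δ := 1 - Int.fract a) (by linarith)] with ε hε
    rintro ⟨n, hn⟩
    have h1 : (⌊a⌋ : ℝ) < n := by linarith [hε.1]
    have h2 : (n : ℝ) < ⌊a⌋ + 1 := by linarith [hε.2]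
    have h1' : ⌊a⌋ < n := by exact_mod_cast h1
    have h2' : n < ⌊a⌋ + 1 := by exact_mod_cast h2
    omega
  · rcases hf0.lt_or_eq with h | h
    · filter_upwards [eventually_lt (δ := Int.fract a) h] with ε hε
      rintro ⟨n, hn⟩
      have h1 : (⌊a⌋ : ℝ) < n := by linarith [hε.2]
      have h2 : (n : ℝ) < ⌊a⌋ + 1 := by linarith [hε.1]
      have h1' : ⌊a⌋ < n := by exact_mod_cast h1
      have h2' : n < ⌊a⌋ + 1 := by exact_mod_cast h2
      omega
    · filter_upwards [eventually_lt (δ := 1) one_pos] with ε hε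
      rintro ⟨n, hn⟩
      have h1 : (⌊a⌋ : ℝ) - 1 < n := by linarith [hε.2]
      have h2 : (n : ℝ) < ⌊a⌋ := by linarith [hε.1]
      have h1' : ⌊a⌋ - 1 < n := by exact_mod_cast h1
      have h2' : n < ⌊a⌋ := by exact_mod_cast h2
      omega

open scoped Classical in
lemma term_jump {s : ℝ} (h0 : 0 < s) (h2 : s < 2) (h1 : s ≠ 1) (x : ℝ) :
    HasJump (term s) x (2 * sg s * ((if ∃ n : ℤ, x - s = n then 1 else 0) -
      (if ∃ n : ℤ, x - 0 = n then 1 else 0))) := by
  have hF : HasJump (fun y => (if s < 1 then (1 : ℝ) else -3) +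
      2 * sg s * ((⌊y - s⌋ : ℝ) + (-1) * (⌊y - 0⌋ : ℝ))) x
      (0 + 2 * sg s * ((if ∃ n : ℤ, x - s = n then 1 else 0) +
      (-1) * (if ∃ n : ℤ, x - 0 = n then 1 else 0))) :=
    (hasJump_const _ x).add (((floor_jump' s x).add ((floor_jump' 0 x).const_mul (-1))).const_mul _)
  have hn := not_int_near (x - s)
  have h3 := hF.congr (G := term s) ?_ ?_
  · convert h3 using 1; ring
  · filter_upwards [hn.1] with ε hε
    rw [term_eq h0 h2 h1 (x + ε) (by
      rintro ⟨n, hn⟩; exact hε ⟨n, by rw [← hn]; ring⟩)]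
    ring
  · filter_upwards [hn.2] with ε hε
    rw [term_eq h0 h2 h1 (x - ε) (by
      rintro ⟨n, hn⟩; exact hε ⟨n, by rw [← hn]; ring⟩)]
    ring

lemma s_bounds {p q i j : ℕ} (hi : i ∈ Finset.Ico 1 p) (hj : j ∈ Finset.Ico 1 q) :
    0 < (i : ℝ) / p + (j : ℝ) / q ∧ (i : ℝ) / p + (j : ℝ) / q < 2 := by
  rw [Finset.mem_Ico] at hi hj
  have hp : (0 : ℝ) < p := by exact_mod_cast (by omega : 0 < p)
  have hq : (0 : ℝ) < q := by exact_mod_cast (by omega : 0 < q)
  have h1 : (0 : ℝ) < (i : ℝ) / p := div_pos (by exact_mod_cast (by omega : 0 < i)) hp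
  have h2 : (0 : ℝ) < (j : ℝ) / q := div_pos (by exact_mod_cast (by omega : 0 < j)) hq
  have h3 : (i : ℝ) / p < 1 := (div_lt_one hp).2 (by exact_mod_cast hi.2)
  have h4 : (j : ℝ) / q < 1 := (div_lt_one hq).2 (by exact_mod_cast hj.2)
  constructor <;> linarith

lemma s_ne_one {p q i j : ℕ} (hc : Nat.Coprime p q) (hi : i ∈ Finset.Ico 1 p)
    (hj : j ∈ Finset.Ico 1 q) : (i : ℝ) / p + (j : ℝ) / q ≠ 1 := by
  rw [Finset.mem_Ico] at hi hj
  intro h
  have hp : (p : ℝ) ≠ 0 := by exact_mod_cast (by omega : p ≠ 0)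
  have hq : (q : ℝ) ≠ 0 := by exact_mod_cast (by omega : q ≠ 0)
  have h1 : (i : ℝ) * q + j * p = p * q := by
    field_simp at h
    linarith
  have h2 : i * q + j * p = p * q := by exact_mod_cast h1
  have h3 : p ∣ i * q := by
    have : p ∣ i * q + j * p := h2 ▸ Dvd.intro q rfl
    exact (Nat.dvd_add_left (Dvd.intro_left j rfl)).1 this
  have h4 : p ∣ i := hc.dvd_of_dvd_mul_right h3
  have := Nat.le_of_dvd (by omega) h4
  omega

lemma sum_sg {p q : ℕ} (hc : Nat.Coprime p q) :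
    ∑ i ∈ Finset.Ico 1 p, ∑ j ∈ Finset.Ico 1 q, sg ((i : ℝ) / p + (j : ℝ) / q) = 0 := by
  have hrefl : ∀ (n : ℕ) (f : ℕ → ℝ), ∑ j ∈ Finset.Ico 1 n, f (n - j) = ∑ j ∈ Finset.Ico 1 n, f j := by
    intro n f
    rcases Nat.eq_zero_or_pos n with rfl | hn
    · simp
    · have := Finset.sum_Ico_reflect f 1 (m := n) (n := n) (by omega)
      rw [this]
      congr 1
      congr 1 <;> omega
  have h1 : ∑ i ∈ Finset.Ico 1 p, ∑ j ∈ Finset.Ico 1 q, sg ((i : ℝ) / p + (j : ℝ) / q) =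
      ∑ i ∈ Finset.Ico 1 p, ∑ j ∈ Finset.Ico 1 q,
        sg (((p - i : ℕ) : ℝ) / p + ((q - j : ℕ) : ℝ) / q) := by
    rw [← hrefl p]
    refine Finset.sum_congr rfl fun i _ => ?_
    rw [← hrefl q]
  have h2 : ∀ i ∈ Finset.Ico 1 p, ∀ j ∈ Finset.Ico 1 q,
      sg (((p - i : ℕ) : ℝ) / p + ((q - j : ℕ) : ℝ) / q) = - sg ((i : ℝ) / p + (j : ℝ) / q) := by
    intro i hi j hj
    have hne := s_ne_one hc hi hj
    have hi' := Finset.mem_Ico.1 hi
    have hj' := Finset.mem_Ico.1 hj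
    have hp : (p : ℝ) ≠ 0 := by exact_mod_cast (by omega : p ≠ 0)
    have hq : (q : ℝ) ≠ 0 := by exact_mod_cast (by omega : q ≠ 0)
    rw [Nat.cast_sub (by omega), Nat.cast_sub (by omega)]
    have e : ((p : ℝ) - i) / p + ((q : ℝ) - j) / q = 2 - ((i : ℝ) / p + (j : ℝ) / q) := by
      field_simp; ring
    rw [e]
    unfold sg
    rcases lt_or_gt_of_ne hne with h | h
    · rw [if_pos h, if_neg (by linarith)]
    · rw [if_neg (show ¬ ((i : ℝ) / p + (j : ℝ) / q < 1) by linarith),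
        if_pos (show 2 - ((i : ℝ) / p + (j : ℝ) / q) < 1 by linarith)]
      norm_num
  have h3 : ∑ i ∈ Finset.Ico 1 p, ∑ j ∈ Finset.Ico 1 q, sg ((i : ℝ) / p + (j : ℝ) / q) =
      - ∑ i ∈ Finset.Ico 1 p, ∑ j ∈ Finset.Ico 1 q, sg ((i : ℝ) / p + (j : ℝ) / q) := by
    conv_lhs => rw [h1]
    rw [← Finset.sum_neg_distrib]
    refine Finset.sum_congr rfl fun i hi => ?_
    rw [← Finset.sum_neg_distrib]
    exact Finset.sum_congr rfl fun j hj => h2 i hi j hj
  linarith

/-- The jump of the signature function of a torus knot is twice the jump function. -/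
theorem sig_jump {p q : ℕ} (hc : Nat.Coprime p q) (x : ℝ) :
    HasJump (fun y => (sig p q y : ℝ)) x (2 * (J p q x : ℝ)) := by
  classical
  have hF : HasJump (fun y => ∑ i ∈ Finset.Ico 1 p, ∑ j ∈ Finset.Ico 1 q,
      term ((i : ℝ) / p + (j : ℝ) / q) y) x
      (∑ i ∈ Finset.Ico 1 p, ∑ j ∈ Finset.Ico 1 q,
        (2 * sg ((i : ℝ) / p + (j : ℝ) / q) *
          ((if ∃ n : ℤ, x - ((i : ℝ) / p + (j : ℝ) / q) = n then 1 else 0) -
      (if ∃ n : ℤ, x - 0 = n then 1 else 0)))) := by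
    refine HasJump.sum _ fun i hi => HasJump.sum _ fun j hj => ?_
    have hb := s_bounds hi hj
    exact term_jump hb.1 hb.2 (s_ne_one hc hi hj) x
  have e1 : (fun y => (sig p q y : ℝ)) = fun y => ∑ i ∈ Finset.Ico 1 p, ∑ j ∈ Finset.Ico 1 q,
      term ((i : ℝ) / p + (j : ℝ) / q) y := by
    funext y
    unfold sig term
    push_cast
    rfl
  rw [e1]
  convert hF using 1
  have e2 : ∑ i ∈ Finset.Ico 1 p, ∑ j ∈ Finset.Ico 1 q,
        (2 * sg ((i : ℝ) / p + (j : ℝ) / q) *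
          ((if ∃ n : ℤ, x - ((i : ℝ) / p + (j : ℝ) / q) = n then (1 : ℝ) else 0) -
      (if ∃ n : ℤ, x - 0 = n then 1 else 0))) =
      ∑ i ∈ Finset.Ico 1 p, ∑ j ∈ Finset.Ico 1 q,
        (2 * sg ((i : ℝ) / p + (j : ℝ) / q) *
          (if ∃ n : ℤ, x - ((i : ℝ) / p + (j : ℝ) / q) = n then (1 : ℝ) else 0)) -
      2 * (if ∃ n : ℤ, x - 0 = n then (1 : ℝ) else 0) *
        ∑ i ∈ Finset.Ico 1 p, ∑ j ∈ Finset.Ico 1 q, sg ((i : ℝ) / p + (j : ℝ) / q) := by
    simp_rw [mul_sub, Finset.sum_sub_distrib]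
    congr 1
    rw [Finset.mul_sum]
    refine Finset.sum_congr rfl fun i _ => ?_
    rw [Finset.mul_sum]
    refine Finset.sum_congr rfl fun j _ => ?_
    ring
  rw [e2, sum_sg hc, mul_zero, sub_zero]
  unfold J
  push_cast
  rw [Finset.mul_sum]
  refine Finset.sum_congr rfl fun i _ => ?_
  rw [Finset.mul_sum]
  refine Finset.sum_congr rfl fun j _ => ?_
  unfold sg
  split_ifs <;> ring

/-- A function vanishing at all but finitely many points of `(0, 1)` has no jumps there. -/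
lemma jump_zero {F : ℝ → ℝ} (hF : {x : ℝ | x ∈ Set.Ioo (0 : ℝ) 1 ∧ F x ≠ 0}.Finite) {x c : ℝ}
    (hx : x ∈ Set.Ioo (0 : ℝ) 1) (h : HasJump F x c) : c = 0 := by
  have hE : ∀ (g : ℝ → ℝ), Function.Injective g → g 0 = x →
      ∀ᶠ ε in 𝓝[>] (0 : ℝ), ¬ (g ε ∈ Set.Ioo (0 : ℝ) 1 ∧ F (g ε) ≠ 0) := by
    intro g hg _
    have hfin : ({ε : ℝ | g ε ∈ Set.Ioo (0 : ℝ) 1 ∧ F (g ε) ≠ 0} \ {0}).Finite :=
      (hF.preimage hg.injOn).subset (fun ε hε => hε.1)
    have hcl := hfin.isClosed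
    have hmem : ({ε : ℝ | g ε ∈ Set.Ioo (0 : ℝ) 1 ∧ F (g ε) ≠ 0} \ {0})ᶜ ∈ 𝓝 (0 : ℝ) :=
      hcl.isOpen_compl.mem_nhds (by simp)
    filter_upwards [mem_nhdsWithin_of_mem_nhds hmem, self_mem_nhdsWithin] with ε h1 h2
    intro h3
    exact h1 ⟨h3, ne_of_gt h2⟩
  have h1 := hE (fun ε => x + ε) (add_right_injective x) (by simp)
  have h2 := hE (fun ε => x - ε) (sub_right_injective) (by simp)
  have h3 := eventually_lt (δ := min x (1 - x)) (lt_min hx.1 (by linarith [hx.2]))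
  have h4 : ∀ᶠ _ in 𝓝[>] (0 : ℝ), c = 0 := by
    filter_upwards [h1, h2, h3, h] with ε a1 a2 a3 a4
    have b1 := lt_of_lt_of_le a3.2 (min_le_left _ _)
    have b2 := lt_of_lt_of_le a3.2 (min_le_right _ _)
    have c1 : F (x + ε) = 0 := by
      by_contra hne
      exact a1 ⟨⟨by linarith [hx.1, a3.1], by linarith⟩, hne⟩
    have c2 : F (x - ε) = 0 := by
      by_contra hne
      exact a2 ⟨⟨by linarith, by linarith [hx.2, a3.1]⟩, hne⟩
    rw [c1, c2, sub_self] at a4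
    exact a4.symm
  exact h4.exists.choose_spec

lemma J_add_int (p q : ℕ) (x : ℝ) (k : ℤ) : J p q (x + k) = J p q x := by
  classical
  unfold J
  refine Finset.sum_congr rfl fun i _ => Finset.sum_congr rfl fun j _ => ?_
  have : (∃ n : ℤ, x + k - ((i : ℝ) / p + (j : ℝ) / q) = n) ↔
      (∃ n : ℤ, x - ((i : ℝ) / p + (j : ℝ) / q) = n) := by
    constructor
    · rintro ⟨n, hn⟩; exact ⟨n - k, by push_cast; linarith⟩
    · rintro ⟨n, hn⟩; exact ⟨n + k, by push_cast; linarith⟩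
  by_cases h : ∃ n : ℤ, x - ((i : ℝ) / p + (j : ℝ) / q) = n
  · rw [if_pos h, if_pos (this.2 h)]
  · rw [if_neg h, if_neg (fun h' => h (this.1 h'))]

lemma J_int {p q : ℕ} (hc : Nat.Coprime p q) (k : ℤ) : J p q k = 0 := by
  classical
  unfold J
  refine Finset.sum_eq_zero fun i hi => Finset.sum_eq_zero fun j hj => ?_
  rw [if_neg]
  rintro ⟨n, hn⟩
  have hb := s_bounds hi hj
  have h1 : ((k - n : ℤ) : ℝ) = (i : ℝ) / p + (j : ℝ) / q := by push_cast; linarith
  have h2 : (0 : ℝ) < ((k - n : ℤ) : ℝ) := by rw [h1]; exact hb.1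
  have h3 : ((k - n : ℤ) : ℝ) < 2 := by rw [h1]; exact hb.2
  have h4 : 0 < k - n := by exact_mod_cast h2
  have h5 : k - n < 2 := by exact_mod_cast h3
  have h6 : k - n = 1 := by omega
  rw [h6] at h1
  exact s_ne_one hc hi hj (by rw [← h1]; norm_num)

/-- all pairs of the list are coprime with positive winding numbers -/
def Cop (L : List (ℕ × ℕ)) : Prop := ∀ c ∈ L, Nat.Coprime c.1 c.2 ∧ 0 < c.1

theorem sigK_jump (L : List (ℕ × ℕ)) (hL : Cop L) (x : ℝ) :
    HasJump (fun y => (sigK L y : ℝ)) x (2 * (JK L x : ℝ)) := by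
  induction L generalizing x with
  | nil => simpa [sigK, JK] using hasJump_const 0 x
  | cons c L ih =>
    obtain ⟨p, q⟩ := c
    have h1 := hL (p, q) (by simp)
    have h2 := sig_jump h1.1 x
    have h3 := ih (fun c hc => hL c (by simp [hc])) ((p : ℝ) * x)
    have h4 := HasJump.comp_mul (P := (p : ℝ)) (by exact_mod_cast h1.2) h3
    have h5 := h2.add h4
    simp only [sigK, JK]
    push_cast
    convert h5 using 1
    ring

lemma JK_add_int (L : List (ℕ × ℕ)) (x : ℝ) (k : ℤ) : JK L (x + k) = JK L x := by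
  induction L generalizing x k with
  | nil => rfl
  | cons c L ih =>
    obtain ⟨p, q⟩ := c
    simp only [JK]
    rw [J_add_int]
    have : (p : ℝ) * (x + k) = p * x + ((p * k : ℤ) : ℝ) := by push_cast; ring
    rw [this, ih]

lemma JK_int (L : List (ℕ × ℕ)) (hL : Cop L) (k : ℤ) : JK L k = 0 := by
  induction L generalizing k with
  | nil => rfl
  | cons c L ih =>
    obtain ⟨p, q⟩ := c
    simp only [JK]
    rw [J_int (hL (p, q) (by simp)).1]
    have : (p : ℝ) * (k : ℝ) = ((p * k : ℤ) : ℝ) := by push_cast; ring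
    rw [this, ih (fun c hc => hL c (by simp [hc])), add_zero]

/-- Relations between signature functions give relations between jump functions. -/
theorem jump_relation {ι : Type*} (S : Finset ι) (a : ι → ℝ) (K : ι → List (ℕ × ℕ))
    (hK : ∀ s ∈ S, Cop (K s))
    (hfin : {x : ℝ | x ∈ Set.Ioo (0 : ℝ) 1 ∧ ∑ s ∈ S, a s * (sigK (K s) x : ℝ) ≠ 0}.Finite)
    (x : ℝ) : ∑ s ∈ S, a s * (JK (K s) x : ℝ) = 0 := by
  have key : ∀ y ∈ Set.Ioo (0 : ℝ) 1, ∑ s ∈ S, a s * (JK (K s) y : ℝ) = 0 := by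
    intro y hy
    have h1 : HasJump (fun z => ∑ s ∈ S, a s * (sigK (K s) z : ℝ)) y
        (∑ s ∈ S, a s * (2 * (JK (K s) y : ℝ))) :=
      HasJump.sum S fun s hs => (sigK_jump (K s) (hK s hs) y).const_mul (a s)
    have h2 := jump_zero hfin hy h1
    have h3 : ∑ s ∈ S, a s * (2 * (JK (K s) y : ℝ)) = 2 * ∑ s ∈ S, a s * (JK (K s) y : ℝ) := by
      rw [Finset.mul_sum]; exact Finset.sum_congr rfl fun s _ => by ring
    rw [h3] at h2
    linarith
  have hfl := Int.floor_add_fract x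
  have hx : x = Int.fract x + (⌊x⌋ : ℝ) := by linarith
  rcases (Int.fract_nonneg x).lt_or_eq with h | h
  · have h4 := key (Int.fract x) ⟨h, Int.fract_lt_one x⟩
    rw [hx]
    simp_rw [JK_add_int]
    exact h4
  · rw [hx, ← h, zero_add]
    exact Finset.sum_eq_zero fun s hs => by rw [JK_int (K s) (hK s hs)]; simp

end Pool.Agent.TH670.KN
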