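import Mathlib
import Pool.Agent.TH670.KN.Four
set_option autoImplicit false

/-!
# Iterated torus knots are determined by their signature functions
-/

namespace Pool.Agent.TH670.KN

open Finset

/-- All cabling parameters are coprime and at least `2`. -/
def Good (L : List (ℕ × ℕ)) : Prop := ∀ c ∈ L, Nat.Coprime c.1 c.2 ∧ 2 ≤ c.1 ∧ 2 ≤ c.2

/-- The two lists give the same iterated torus knot: they are equal, or they differ by exchanging
the parameters of the innermost torus knot. -/
def Same (L L' : List (ℕ × ℕ)) : Prop :=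
  L = L' ∨ ∃ (M : List (ℕ × ℕ)) (p q : ℕ), L = M ++ [(p, q)] ∧ L' = M ++ [(q, p)]

lemma Same.cons {L L' : List (ℕ × ℕ)} (c : ℕ × ℕ) (h : Same L L') : Same (c :: L) (c :: L') := by
  rcases h with h | ⟨M, p, q, h1, h2⟩
  · exact Or.inl (by rw [h])
  · exact Or.inr ⟨c :: M, p, q, by simp [h1], by simp [h2]⟩

/-- the Möbius transformation -/
noncomputable def mo (z : ℂ) : ℂ := (1 + z) / (z - 1)

lemma mo_inj {z w : ℂ} (hz : z ≠ 1) (hw : w ≠ 1) (h : mo z = mo w) : z = w := by
  unfold mo at h
  rw [div_eq_div_iff (sub_ne_zero.2 hz) (sub_ne_zero.2 hw)] at h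
  linear_combination (-1 / 2 : ℂ) * h

lemma mo_zero {z : ℂ} (hz : z ≠ 1) (h : mo z = 0) : z = -1 := by
  unfold mo at h
  rw [div_eq_zero_iff] at h
  rcases h with h | h
  · linear_combination h
  · exact absurd h (sub_ne_zero.2 hz)

lemma ee_ne_one {h n : ℕ} (hn : 0 < n) (hd : ¬ n ∣ h) : ee ((h : ℝ) / n) ≠ 1 := by
  have hn' : (n : ℝ) ≠ 0 := by exact_mod_cast hn.ne'
  rw [Ne, ee_eq_one_iff]
  rintro ⟨m, hm⟩
  apply hd
  have h2 : (h : ℝ) = m * n := by rw [← hm]; field_simp
  have h3 : (h : ℤ) = m * n := by exact_mod_cast h2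
  exact Int.natCast_dvd_natCast.1 ⟨m, by rw [h3]; ring⟩

lemma ee_neg_one {h n : ℕ} (hn : 0 < n) (hd : ee ((h : ℝ) / n) = -1) : n ∣ 2 * h := by
  have hn' : (n : ℝ) ≠ 0 := by exact_mod_cast hn.ne'
  have h1 : ee ((2 * h : ℕ) / n) = 1 := by
    have : (((2 * h : ℕ) : ℝ) / n) = (h : ℝ) / n + (h : ℝ) / n := by push_cast; ring
    rw [this, ee_add, hd]; norm_num
  rw [ee_eq_one_iff] at h1
  obtain ⟨m, hm⟩ := h1
  have h2 : ((2 * h : ℕ) : ℝ) = m * n := by rw [← hm]; field_simp
  have h3 : ((2 * h : ℕ) : ℤ) = m * n := by exact_mod_cast h2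
  exact Int.natCast_dvd_natCast.1 ⟨m, by rw [h3]; ring⟩

/-- The Fourier coefficient of the jump function of an iterated torus knot. -/
lemma Ft_cons {p q : ℕ} {L : List (ℕ × ℕ)} (hc : Nat.Coprime p q) (hp : 0 < p) (hq : 0 < q)
    {N : ℕ} (hN : 0 < N) (hpq : p * q ∣ N * p) (h : ℕ) :
    Ft (N * p) (JK ((p, q) :: L)) h = G p q h + if p ∣ h then (p : ℂ) * Ft N (JK L) (h / p) else 0 := by
  have h1 : Ft (N * p) (JK ((p, q) :: L)) h = Ft (N * p) (J p q) h +
      Ft (N * p) (fun x => JK L (p * x)) h := by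
    unfold Ft
    rw [← Finset.sum_add_distrib]
    refine Finset.sum_congr rfl fun k _ => ?_
    simp only [JK]
    push_cast
    ring
  rw [h1, Ft_J hp hq (Nat.mul_pos hN hp) hpq, Ft_comp (JK_add_int L) hp hN]

/-- product of the head -/
def hd : List (ℕ × ℕ) → ℕ
  | [] => 1
  | (p, q) :: _ => p * q

/-- The first Fourier coefficient. -/
lemma Ft_one {L : List (ℕ × ℕ)} (hL : Good L) {N : ℕ} (hN : 0 < N) (hdN : hd L ∣ N) :
    (L = [] ∧ Ft N (JK L) 1 = 0) ∨ (L ≠ [] ∧ 6 ≤ hd L ∧ Ft N (JK L) 1 = mo (ee ((1 : ℝ) / hd L))) := by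
  rcases L with _ | ⟨⟨p, q⟩, L⟩
  · left; refine ⟨rfl, ?_⟩
    unfold Ft; simp [JK]
  · right
    obtain ⟨hc, hp, hq⟩ := hL (p, q) (by simp)
    simp only at hc hp hq
    refine ⟨by simp, ?_, ?_⟩
    · change 6 ≤ p * q
      have hne : p ≠ q := by
        rintro rfl
        rw [Nat.coprime_self] at hc; omega
      rcases Nat.lt_or_gt_of_ne hne with h | h
      · calc 6 = 2 * 3 := rfl
          _ ≤ p * q := Nat.mul_le_mul hp (by omega)
      · calc 6 = 3 * 2 := rfl
          _ ≤ p * q := Nat.mul_le_mul (by omega) hq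
    · change p * q ∣ N at hdN
      obtain ⟨M, hM⟩ := hdN
      have hMp : 0 < M := by
        rcases Nat.eq_zero_or_pos M with h | h
        · rw [h, mul_zero] at hM; omega
        · exact h
      have hN2 : N = (q * M) * p := by rw [hM]; ring
      rw [hN2, Ft_cons hc (by omega) (by omega) (Nat.mul_pos (by omega) hMp) ⟨M, by ring⟩,
        if_neg (by rw [Nat.dvd_one]; omega), add_zero,
        G_formula hc (by omega) (by omega) (by rw [Nat.dvd_one]; omega),
        if_neg (by rw [Nat.dvd_one]; omega), sub_zero]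
      change _ = mo (ee ((1 : ℝ) / ((p * q : ℕ) : ℝ)))
      unfold mo
      push_cast
      rfl

lemma Ft_congr {f g : ℝ → ℤ} (h : ∀ x, f x = g x) (N k : ℕ) : Ft N f k = Ft N g k := by
  have : f = g := funext h
  rw [this]

lemma ee_first {n : ℕ} (hn : 6 ≤ n) : ee ((1 : ℝ) / n) ≠ 1 := by
  have h := ee_ne_one (h := 1) (n := n) (by omega) (by rw [Nat.dvd_one]; omega)
  rwa [Nat.cast_one] at h

lemma first_ne_zero {n : ℕ} (hn : 6 ≤ n) : mo (ee ((1 : ℝ) / n)) ≠ 0 := by
  intro h
  have h0 := mo_zero (ee_first hn) h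
  have h1 := ee_neg_one (h := 1) (n := n) (by omega) (by rw [Nat.cast_one]; exact h0)
  have := Nat.le_of_dvd (by omega) h1
  omega

lemma eq_nil_of_first {L : List (ℕ × ℕ)} (hL : Good L) {N : ℕ} (hN : 0 < N) (hdN : hd L ∣ N)
    (h : Ft N (JK L) 1 = 0) : L = [] := by
  rcases Ft_one hL hN hdN with h1 | h1
  · exact h1.1
  · exact absurd (h1.2.2 ▸ h) (first_ne_zero h1.2.1)

/-- The crucial case. -/
lemma key {p q p' q' : ℕ} {L L' : List (ℕ × ℕ)} (hL : Good ((p, q) :: L))
    (hL' : Good ((p', q') :: L')) (heq : ∀ x, JK ((p, q) :: L) x = JK ((p', q') :: L') x)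
    (hn : p * q = p' * q') (hlt : q < q') : p = q' ∧ q = p' ∧ L = [] ∧ L' = [] := by
  obtain ⟨hc, hp, hq⟩ := hL (p, q) (by simp)
  obtain ⟨hc', hp', hq'⟩ := hL' (p', q') (by simp)
  simp only at hc hp hq hc' hp' hq'
  have hLg : Good L := fun c hcc => hL c (by simp [hcc])
  have hLg' : Good L' := fun c hcc => hL' c (by simp [hcc])
  have hdpos : ∀ M : List (ℕ × ℕ), Good M → 0 < hd M := by
    intro M hM
    rcases M with _ | ⟨⟨a, b⟩, M⟩
    · exact one_pos
    · obtain ⟨_, h1, h2⟩ := hM (a, b) (by simp)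
      exact Nat.mul_pos (by simp only at h1; omega) (by simp only at h2; omega)
  have hd1 := hdpos L hLg
  have hd2 := hdpos L' hLg'
  -- the common level
  set N₁ := q * p' * q' * hd L * hd L' with hN₁
  set N₂ := q' * p * q * hd L * hd L' with hN₂
  have hlev : N₁ * p = N₂ * p' := by rw [hN₁, hN₂]; ring
  have hN₁pos : 0 < N₁ := by rw [hN₁]; positivity
  have hN₂pos : 0 < N₂ := by rw [hN₂]; positivity
  have F : ∀ h : ℕ, G p q h + (if p ∣ h then (p : ℂ) * Ft N₁ (JK L) (h / p) else 0) =
      G p' q' h + (if p' ∣ h then (p' : ℂ) * Ft N₂ (JK L') (h / p') else 0) := by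
    intro h
    rw [← Ft_cons hc (by omega) (by omega) hN₁pos ⟨p' * q' * hd L * hd L', by rw [hN₁]; ring⟩ h,
      ← Ft_cons hc' (by omega) (by omega) hN₂pos ⟨p * q * hd L * hd L', by rw [hN₂]; ring⟩ h, hlev]
    exact Ft_congr heq _ _
  have hpq : ¬ p ∣ q := by
    intro h
    have h2 : Nat.gcd p q = p := Nat.gcd_eq_left h
    rw [hc] at h2; omega
  have hqp : ¬ q ∣ p := by
    intro h
    have h2 : Nat.gcd p q = q := Nat.gcd_eq_right h
    rw [hc] at h2; omega
  have hpq' : ¬ p' ∣ q' := by
    intro h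
    have h2 : Nat.gcd p' q' = p' := Nat.gcd_eq_left h
    rw [hc'] at h2; omega
  have hqp' : ¬ q' ∣ p' := by
    intro h
    have h2 : Nat.gcd p' q' = q' := Nat.gcd_eq_right h
    rw [hc'] at h2; omega
  have hq'q : ¬ q' ∣ q := fun h => by have := Nat.le_of_dvd (by omega) h; omega
  have hncast : (p : ℝ) * q = p' * q' := by exact_mod_cast hn
  by_cases hp'q : p' ∣ q
  · obtain ⟨c, hcq⟩ := hp'q
    have hq'c : q' = p * c := by
      have h1 : p' * (p * c) = p' * q' := by rw [← hn, hcq]; ring
      exact (Nat.eq_of_mul_eq_mul_left (by omega) h1).symm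
    by_cases hc1 : c = 1
    · subst hc1
      rw [mul_one] at hcq hq'c
      subst hcq
      subst hq'c
      refine ⟨rfl, rfl, ?_, ?_⟩
      · have h1 := F q'
        rw [G_swap q' q, if_pos (dvd_refl _), if_neg hqp, Nat.div_self (by omega), add_zero,
          add_eq_left, mul_eq_zero] at h1
        rcases h1 with h1 | h1
        · exfalso; have : q' = 0 := by exact_mod_cast h1
          omega
        · exact eq_nil_of_first hLg hN₁pos ⟨q * q * q' * hd L', by rw [hN₁]; ring⟩ h1
      · have h1 := F q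
        rw [G_swap q' q, if_pos (dvd_refl _), if_neg hpq, Nat.div_self (by omega), add_zero,
          left_eq_add, mul_eq_zero] at h1
        rcases h1 with h1 | h1
        · exfalso; have : q = 0 := by exact_mod_cast h1
          omega
        · exact eq_nil_of_first hLg' hN₂pos ⟨q' * q' * q * hd L, by rw [hN₂]; ring⟩ h1
    · exfalso
      have hc0 : c ≠ 0 := by rintro rfl; omega
      have hc2 : 2 ≤ c := by omega
      have hp'lt : p' < q := by rw [hcq]; nlinarith
      have hqp'd : ¬ q ∣ p' := fun h => by have := Nat.le_of_dvd (by omega) h; omega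
      have hpp' : ¬ p ∣ p' := by
        intro h
        have h1 : p ∣ q := h.trans ⟨c, hcq⟩
        exact hpq h1
      have h1 := F p'
      rw [if_neg hpp', add_zero, if_pos (dvd_refl _), Nat.div_self (by omega),
        G_formula hc (by omega) (by omega) hqp'd, if_neg hpp', sub_zero,
        G_formula hc' (by omega) (by omega) hqp', if_pos (dvd_refl _), hncast] at h1
      have hp'0 : (p' : ℂ) ≠ 0 := by exact_mod_cast (by omega : p' ≠ 0)
      have h2 : Ft N₂ (JK L') 1 = mo (ee ((p' : ℝ) / q')) := by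
        unfold mo
        apply mul_left_cancel₀ hp'0
        linear_combination -h1
      have hv1 : ee ((p' : ℝ) / q') ≠ 1 := ee_ne_one (by omega) hqp'
      rcases Ft_one hLg' hN₂pos ⟨q' * p * q * hd L, by rw [hN₂]; ring⟩ with h3 | h3
      · rw [h3.2] at h2
        have h4 := ee_neg_one (by omega) (mo_zero hv1 h2.symm)
        have h5 : q' ∣ 2 := (Nat.Coprime.symm hc').dvd_of_dvd_mul_right h4
        have h6 := Nat.le_of_dvd (by omega) h5
        have : 4 ≤ q' := by rw [hq'c]; nlinarith
        omega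
      · rw [h3.2.2] at h2
        have hu1 : ee ((1 : ℝ) / hd L') ≠ 1 := ee_first h3.2.1
        have h4 := mo_inj hu1 hv1 h2
        rw [ee_eq_iff] at h4
        obtain ⟨m, hm⟩ := h4
        have hq0 : (q' : ℝ) ≠ 0 := by exact_mod_cast (by omega : q' ≠ 0)
        have hh0 : (hd L' : ℝ) ≠ 0 := by exact_mod_cast (by omega : hd L' ≠ 0)
        have h5 : (q' : ℝ) - p' * hd L' = m * (hd L' * q') := by
          rw [← hm]; field_simp
        have h6 : (q' : ℤ) - p' * hd L' = m * (hd L' * q') := by exact_mod_cast h5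
        have h7 : (q' : ℤ) ∣ (p' : ℤ) * hd L' := ⟨1 - m * hd L', by linear_combination -h6⟩
        have h8 : (hd L' : ℤ) ∣ (q' : ℤ) := ⟨p' + m * q', by linear_combination h6⟩
        have h7' : q' ∣ p' * hd L' := by exact_mod_cast h7
        have h8' : hd L' ∣ q' := by exact_mod_cast h8
        have h9 : q' ∣ hd L' := (Nat.Coprime.symm hc').dvd_of_dvd_mul_left h7'
        have h10 : hd L' = q' := Nat.dvd_antisymm h8' h9
        rw [h10] at h6
        have h11 : (q' : ℤ) * (1 - p') = q' * (m * q') := by linear_combination h6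
        have hq0' : (q' : ℤ) ≠ 0 := by exact_mod_cast (by omega : q' ≠ 0)
        have h12 : (1 : ℤ) - p' = m * q' := mul_left_cancel₀ hq0' h11
        have h13 : (q' : ℤ) ∣ ((p' - 1 : ℕ) : ℤ) := by
          rw [Nat.cast_sub (by omega)]
          exact ⟨-m, by push_cast; linear_combination -h12⟩
        have h14 : q' ∣ p' - 1 := by exact_mod_cast h13
        have := Nat.le_of_dvd (by omega) h14
        omega
  · exfalso
    have h1 := F q
    rw [if_neg hpq, add_zero, if_neg hp'q, add_zero, G_swap p q,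
      G_formula (Nat.Coprime.symm hc) (by omega) (by omega) hpq, if_pos (dvd_refl _),
      G_formula hc' (by omega) (by omega) hq'q, if_neg hp'q, sub_zero] at h1
    have e1 : (q : ℝ) * p = p' * q' := by rw [mul_comm]; exact hncast
    rw [e1] at h1
    have hq0 : (q : ℂ) ≠ 0 := by exact_mod_cast (by omega : q ≠ 0)
    have h2 : mo (ee ((q : ℝ) / p)) = 0 := by
      unfold mo
      apply mul_left_cancel₀ hq0
      linear_combination -h1
    have h3 := ee_neg_one (by omega) (mo_zero (ee_ne_one (by omega) hpq) h2)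
    have h4 : p ∣ 2 := hc.dvd_of_dvd_mul_right h3
    have h5 := Nat.le_of_dvd (by omega) h4
    have h6 : p = 2 := by omega
    subst h6
    nlinarith

lemma good_tail {c : ℕ × ℕ} {L : List (ℕ × ℕ)} (h : Good (c :: L)) : Good L :=
  fun d hd => h d (by simp [hd])

/-- Iterated torus knots with the same jump function are equal. -/
theorem same_of_jump : ∀ (L L' : List (ℕ × ℕ)), Good L → Good L' →
    (∀ x, JK L x = JK L' x) → Same L L' := by
  intro L
  induction L with
  | nil =>
    intro L' _ hL' heq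
    left
    have hpos : 0 < hd L' := by
      rcases L' with _ | ⟨⟨a, b⟩, M⟩
      · exact one_pos
      · obtain ⟨_, h1, h2⟩ := hL' (a, b) (by simp)
        exact Nat.mul_pos (by simp only at h1; omega) (by simp only at h2; omega)
    refine (eq_nil_of_first hL' hpos (dvd_refl _) ?_).symm
    rw [← Ft_congr heq]
    unfold Ft; simp [JK]
  | cons c L ih =>
    intro L' hL hL' heq
    rcases L' with _ | ⟨c', L'⟩
    · left
      have hpos : 0 < hd (c :: L) := by
        obtain ⟨a, b⟩ := c
        obtain ⟨_, h1, h2⟩ := hL (a, b) (by simp)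
        exact Nat.mul_pos (by simp only at h1; omega) (by simp only at h2; omega)
      refine eq_nil_of_first hL hpos (dvd_refl _) ?_
      rw [Ft_congr heq]
      unfold Ft; simp [JK]
    · obtain ⟨p, q⟩ := c
      obtain ⟨p', q'⟩ := c'
      have hg := hL (p, q) (by simp)
      have hg' := hL' (p', q') (by simp)
      simp only at hg hg'
      have hn : p * q = p' * q' := by
        have hN : 0 < (p * q) * (p' * q') := by
          have := hg.2.1; have := hg.2.2; have := hg'.2.1; have := hg'.2.2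
          positivity
        have h1 := Ft_one hL hN (show hd ((p, q) :: L) ∣ _ from ⟨p' * q', rfl⟩)
        have h2 := Ft_one hL' hN (show hd ((p', q') :: L') ∣ _ from ⟨p * q, by
          change _ = (p' * q') * (p * q); ring⟩)
        rcases h1 with h1 | h1
        · simp at h1
        rcases h2 with h2 | h2
        · simp at h2
        have h3 : mo (ee ((1 : ℝ) / hd ((p, q) :: L))) = mo (ee ((1 : ℝ) / hd ((p', q') :: L'))) := by
          rw [← h1.2.2, ← h2.2.2]; exact Ft_congr heq _ _
        have h5 : hd ((p, q) :: L) = p * q := rfl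
        have h6 : hd ((p', q') :: L') = p' * q' := rfl
        rw [h5] at h1 h3
        rw [h6] at h2 h3
        have a1 : ee ((1 : ℝ) / ((p * q : ℕ) : ℝ)) ≠ 1 := ee_first h1.2.1
        have a2 : ee ((1 : ℝ) / ((p' * q' : ℕ) : ℝ)) ≠ 1 := ee_first h2.2.1
        have h4 := mo_inj a1 a2 h3
        rw [ee_eq_iff] at h4
        obtain ⟨m, hm⟩ := h4
        have b1 : (6 : ℝ) ≤ ((p * q : ℕ) : ℝ) := by exact_mod_cast h1.2.1
        have b2 : (6 : ℝ) ≤ ((p' * q' : ℕ) : ℝ) := by exact_mod_cast h2.2.1
        have c1 : (1 : ℝ) / ((p * q : ℕ) : ℝ) ≤ 1 / 6 := one_div_le_one_div_of_le (by norm_num) b1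
        have c2 : (1 : ℝ) / ((p' * q' : ℕ) : ℝ) ≤ 1 / 6 := one_div_le_one_div_of_le (by norm_num) b2
        have c3 : (0 : ℝ) < 1 / ((p * q : ℕ) : ℝ) := by positivity
        have c4 : (0 : ℝ) < 1 / ((p' * q' : ℕ) : ℝ) := by positivity
        have d1 : (m : ℝ) < 1 := by linarith
        have d2 : (-1 : ℝ) < m := by linarith
        have e1 : m < 1 := by exact_mod_cast d1
        have e2 : -1 < m := by exact_mod_cast d2
        have e3 : m = 0 := by omega
        rw [e3, Int.cast_zero, sub_eq_zero] at hm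
        have f1 : ((p * q : ℕ) : ℝ) = ((p' * q' : ℕ) : ℝ) := by
          have := congrArg (fun t : ℝ => 1 / t) hm
          simpa using this
        exact_mod_cast f1
      rcases Nat.lt_trichotomy q q' with h | h | h
      · obtain ⟨h1, h2, h3, h4⟩ := key hL hL' heq hn h
        subst h1; subst h2; subst h3; subst h4
        exact Or.inr ⟨[], _, _, rfl, rfl⟩
      · subst h
        have h1 : p = p' := Nat.eq_of_mul_eq_mul_right (by omega) hn
        subst h1
        apply Same.cons
        apply ih L' (good_tail hL) (good_tail hL')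
        intro y
        have h2 := heq (y / p)
        simp only [JK] at h2
        have hp0 : (p : ℝ) ≠ 0 := by exact_mod_cast (by omega : p ≠ 0)
        rw [mul_div_cancel₀ y hp0] at h2
        omega
      · obtain ⟨h1, h2, h3, h4⟩ := key hL' hL (fun x => (heq x).symm) hn.symm h
        subst h1; subst h2; subst h3; subst h4
        exact Or.inr ⟨[], _, _, rfl, rfl⟩

end Pool.Agent.TH670.KN
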