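import Mathlib
import Pool.Agent.TH670.KN.Four
set_option autoImplicit false

/-!
# Isolating the jump functions of cables of torus knots
-/

namespace Pool.Agent.TH670.KN

open Finset

/-- If the jump function does not vanish at `x`, then `p q x` is an integer. -/
lemma J_ne_zero {p q : ℕ} {x : ℝ} (h : J p q x ≠ 0) : ∃ m : ℤ, (p * q : ℝ) * x = m := by
  classical
  unfold J at h
  obtain ⟨i, hi, h1⟩ := Finset.exists_ne_zero_of_sum_ne_zero h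
  obtain ⟨j, hj, h2⟩ := Finset.exists_ne_zero_of_sum_ne_zero h1
  rw [mem_Ico] at hi hj
  have hp : (p : ℝ) ≠ 0 := by exact_mod_cast (by omega : p ≠ 0)
  have hq : (q : ℝ) ≠ 0 := by exact_mod_cast (by omega : q ≠ 0)
  by_cases h3 : ∃ n : ℤ, x - ((i : ℝ) / p + (j : ℝ) / q) = n
  · obtain ⟨n, hn⟩ := h3
    refine ⟨p * q * n + i * q + j * p, ?_⟩
    have : x = n + ((i : ℝ) / p + (j : ℝ) / q) := by linarith
    rw [this]; push_cast; field_simp; ring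
  · rw [if_neg h3] at h2; exact absurd rfl h2

/-- If the jump function of `T(p,q)` does not vanish at `P U / N`, `U` prime to `N`, then `N` divides
`p q P`. -/
lemma dvd_of_ne_zero {p q P U N : ℕ} (hN : 0 < N) (hU : Nat.Coprime U N)
    (h : J p q (P * ((U : ℝ) / N)) ≠ 0) : N ∣ p * q * P := by
  obtain ⟨m, hm⟩ := J_ne_zero h
  have hN' : (N : ℝ) ≠ 0 := by exact_mod_cast hN.ne'
  have h1 : ((p * q * P * U : ℕ) : ℝ) = m * N := by
    rw [← hm]; push_cast; field_simp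
  have h2 : ((p * q * P * U : ℕ) : ℤ) = m * N := by exact_mod_cast h1
  have h3 : N ∣ p * q * P * U := Int.natCast_dvd_natCast.1 ⟨m, by rw [h2]; ring⟩
  exact (Nat.Coprime.symm hU).dvd_of_dvd_mul_right h3

/-- The value of the jump function. -/
lemma J_value {p q α β : ℕ} (hc : Nat.Coprime p q) (hα : 0 < α) (hαp : α < p) (hβ : 0 < β)
    (hβq : β < q) : J p q ((α : ℝ) / p + (β : ℝ) / q) = if α * q + β * p < p * q then 1 else -1 := by
  classical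
  have hp : (p : ℝ) ≠ 0 := by exact_mod_cast (by omega : p ≠ 0)
  have hq : (q : ℝ) ≠ 0 := by exact_mod_cast (by omega : q ≠ 0)
  have huniq : ∀ i j : ℕ, 0 < i → i < p → 0 < j → j < q →
      (∃ n : ℤ, (α : ℝ) / p + (β : ℝ) / q - ((i : ℝ) / p + (j : ℝ) / q) = n) → i = α ∧ j = β := by
    rintro i j hi hip hj hjq ⟨n, hn⟩
    have h1 : ((α : ℝ) - i) * q + (β - j) * p = n * (p * q) := by
      rw [← hn]; field_simp; ring
    have h2 : ((α : ℤ) - i) * q + (β - j) * p = n * (p * q) := by exact_mod_cast h1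
    have hcz : IsCoprime (p : ℤ) (q : ℤ) := Nat.isCoprime_iff_coprime.2 hc
    have h3 : (p : ℤ) ∣ ((α : ℤ) - i) := by
      apply hcz.dvd_of_dvd_mul_right
      exact ⟨n * q - (β - j), by linear_combination h2⟩
    have h4 : (q : ℤ) ∣ ((β : ℤ) - j) := by
      apply hcz.symm.dvd_of_dvd_mul_right
      exact ⟨n * p - (α - i), by linear_combination h2⟩
    have h5 : (α : ℤ) - i = 0 := by
      apply Int.eq_zero_of_abs_lt_dvd h3
      rw [abs_lt]; constructor <;> omega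
    have h6 : (β : ℤ) - j = 0 := by
      apply Int.eq_zero_of_abs_lt_dvd h4
      rw [abs_lt]; constructor <;> omega
    omega
  unfold J
  rw [Finset.sum_eq_single α]
  · rw [Finset.sum_eq_single β]
    · rw [if_pos ⟨0, by simp⟩]
      by_cases h : (α : ℝ) / p + (β : ℝ) / q < 1
      · rw [if_pos h, if_pos ((lt_one_iff (by omega) (by omega)).1 h)]
      · rw [if_neg h, if_neg (fun h' => h ((lt_one_iff (by omega) (by omega)).2 h'))]
    · intro j hj hne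
      rw [mem_Ico] at hj
      rw [if_neg]
      intro h
      exact hne (huniq α j hα hαp (by omega) hj.2 h).2
    · intro h; exact absurd (mem_Ico.2 ⟨hβ, hβq⟩) h
  · intro i hi hne
    rw [mem_Ico] at hi
    refine Finset.sum_eq_zero fun j hj => ?_
    rw [mem_Ico] at hj
    rw [if_neg]
    intro h
    exact hne (huniq i j (by omega) hi.2 (by omega) hj.2 h).1
  · intro h; exact absurd (mem_Ico.2 ⟨hα, hαp⟩) h

lemma exists_crt {m₁ m₂ m₃ : ℕ} (h12 : Nat.Coprime m₁ m₂) (h13 : Nat.Coprime m₁ m₃)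
    (h23 : Nat.Coprime m₂ m₃) (u v : ℕ) :
    ∃ U : ℕ, U ≡ u [MOD m₁] ∧ U ≡ v [MOD m₂] ∧ U ≡ 1 [MOD m₃] := by
  obtain ⟨k, hk1, hk2⟩ := Nat.chineseRemainder h12 u v
  obtain ⟨U, hU1, hU2⟩ := Nat.chineseRemainder (Nat.Coprime.mul_left h13 h23) k 1
  exact ⟨U, (hU1.of_dvd (Dvd.intro _ rfl)).trans hk1, (hU1.of_dvd (Dvd.intro_left _ rfl)).trans hk2,
    hU2⟩

lemma coprime_of_modEq {U u m : ℕ} (h : U ≡ u [MOD m]) (hu : Nat.Coprime u m) : Nat.Coprime U m := by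
  unfold Nat.Coprime at *
  rw [Nat.ModEq.gcd_eq h]; exact hu

/-- The evaluation points: data attached to `p₀ = l ^ a`, `q₀ = r ^ b`, `P₀ = l ^ A r ^ B M`. -/
lemma exists_points {l r a b A B M : ℕ} (hl : l.Prime) (hr : r.Prime) (hlr : l ≠ r) (ha : 0 < a)
    (hb : 0 < b) (hlM : Nat.Coprime l M) (hrM : Nat.Coprime r M) (hM : 0 < M) :
    ∃ U : ℕ → ℕ → ℕ,
      (∀ α β, Nat.Coprime α l → Nat.Coprime β r →
        Nat.Coprime (U α β) (l ^ (a + A) * r ^ (b + B) * M)) ∧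
      (∀ α β, U α β ≡ α * r ^ b + β * l ^ a [MOD l ^ a * r ^ b]) ∧
      (∀ α α' β, α ≡ α' [MOD l ^ (a - 1)] →
        U α β ≡ U α' β [MOD l ^ (a - 1) * (r ^ (b + B) * M)]) ∧
      (∀ α β β', β ≡ β' [MOD r ^ (b - 1)] →
        U α β ≡ U α β' [MOD r ^ (b - 1) * (l ^ (a + A) * M)]) := by
  have hcop : Nat.Coprime l r := (Nat.coprime_primes hl hr).2 hlr
  have c12 : Nat.Coprime (l ^ (a + A)) (r ^ (b + B)) := Nat.Coprime.pow _ _ hcop
  have c13 : Nat.Coprime (l ^ (a + A)) M := Nat.Coprime.pow_left _ hlM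
  have c23 : Nat.Coprime (r ^ (b + B)) M := Nat.Coprime.pow_left _ hrM
  choose U hU1 hU2 hU3 using fun α β : ℕ => exists_crt c12 c13 c23 (α * r ^ b) (β * l ^ a)
  refine ⟨U, ?_, ?_, ?_, ?_⟩
  · intro α β hα hβ
    refine Nat.Coprime.mul_right (Nat.Coprime.mul_right ?_ ?_) ?_
    · apply coprime_of_modEq (hU1 α β)
      exact Nat.Coprime.pow_right _ (Nat.Coprime.mul_left hα (Nat.Coprime.pow_left _ hcop.symm))
    · apply coprime_of_modEq (hU2 α β)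
      exact Nat.Coprime.pow_right _ (Nat.Coprime.mul_left hβ (Nat.Coprime.pow_left _ hcop))
    · apply coprime_of_modEq (hU3 α β)
      exact Nat.coprime_one_left M
  · intro α β
    have c : Nat.Coprime (l ^ a) (r ^ b) := Nat.Coprime.pow _ _ hcop
    rw [← Nat.modEq_and_modEq_iff_modEq_mul c]
    constructor
    · have h1 := (hU1 α β).of_dvd (pow_dvd_pow l (Nat.le_add_right a A))
      refine h1.trans ?_
      have h2 : β * l ^ a ≡ 0 [MOD l ^ a] := (Nat.modEq_zero_iff_dvd).2 (Dvd.intro_left _ rfl)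
      exact (Nat.ModEq.add_left (α * r ^ b) h2).symm.trans (by rfl) |>.symm.symm
    · have h1 := (hU2 α β).of_dvd (pow_dvd_pow r (Nat.le_add_right b B))
      refine h1.trans ?_
      have h2 : α * r ^ b ≡ 0 [MOD r ^ b] := (Nat.modEq_zero_iff_dvd).2 (Dvd.intro_left _ rfl)
      have h3 := (Nat.ModEq.add_right (β * l ^ a) h2)
      rw [zero_add] at h3
      exact h3.symm
  · intro α α' β h
    have cc : Nat.Coprime (l ^ (a - 1)) (r ^ (b + B) * M) :=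
      Nat.Coprime.mul_right (Nat.Coprime.pow _ _ hcop) (Nat.Coprime.pow_left _ hlM)
    rw [← Nat.modEq_and_modEq_iff_modEq_mul cc, ← Nat.modEq_and_modEq_iff_modEq_mul c23]
    refine ⟨?_, (hU2 α β).trans (hU2 α' β).symm, (hU3 α β).trans (hU3 α' β).symm⟩
    have hd : l ^ (a - 1) ∣ l ^ (a + A) := pow_dvd_pow l (by omega)
    exact ((hU1 α β).of_dvd hd).trans ((h.mul_right _).trans ((hU1 α' β).of_dvd hd).symm)
  · intro α β β' h
    have cc : Nat.Coprime (r ^ (b - 1)) (l ^ (a + A) * M) :=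
      Nat.Coprime.mul_right (Nat.Coprime.pow _ _ hcop.symm) (Nat.Coprime.pow_left _ hrM)
    rw [← Nat.modEq_and_modEq_iff_modEq_mul cc, ← Nat.modEq_and_modEq_iff_modEq_mul c13]
    refine ⟨?_, (hU1 α β).trans (hU1 α β').symm, (hU3 α β).trans (hU3 α β').symm⟩
    have hd : r ^ (b - 1) ∣ r ^ (b + B) := pow_dvd_pow r (by omega)
    exact ((hU2 α β).of_dvd hd).trans ((h.mul_right _).trans ((hU2 α β').of_dvd hd).symm)

lemma J_congr_mod {p q P U V N : ℕ} (hN : 0 < N) (h : P * U ≡ P * V [MOD N]) :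
    J p q (P * ((U : ℝ) / N)) = J p q (P * ((V : ℝ) / N)) := by
  have hN' : (N : ℝ) ≠ 0 := by exact_mod_cast hN.ne'
  obtain ⟨k, hk⟩ := (Nat.modEq_iff_dvd.1 h)
  have h1 : (((P * V : ℕ) : ℤ) : ℝ) - (((P * U : ℕ) : ℤ) : ℝ) = (N : ℝ) * k := by exact_mod_cast hk
  have h2 : (P : ℝ) * ((V : ℝ) / N) = P * ((U : ℝ) / N) + (k : ℝ) := by
    push_cast at h1
    field_simp
    linarith
  rw [h2, J_add_int]

/-- Cancelling powers of a prime. -/
lemma pow_dvd_of {l a A n P : ℕ} (hl : l.Prime) (h : l ^ (a + A) ∣ n * P) (hP : ¬ l ^ (A + 1) ∣ P)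
    : l ^ a ∣ n := by
  rcases Nat.eq_zero_or_pos P with rfl | hP0
  · exact absurd (dvd_zero _) hP
  obtain ⟨k, P', hP', rfl⟩ := Nat.exists_eq_pow_mul_and_not_dvd hP0.ne' l hl.ne_one
  have hk : k ≤ A := by
    by_contra hk
    exact hP (dvd_mul_of_dvd_left (pow_dvd_pow l (by omega)) _)
  have h1 : l ^ k * l ^ (a + A - k) ∣ l ^ k * (n * P') := by
    rw [← pow_add, Nat.add_sub_cancel' (by omega)]
    calc l ^ (a + A) ∣ n * (l ^ k * P') := h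
      _ = l ^ k * (n * P') := by ring
  have h2 : l ^ (a + A - k) ∣ n * P' := (Nat.mul_dvd_mul_iff_left (pow_pos hl.pos k)).1 h1
  have h3 : Nat.Coprime (l ^ (a + A - k)) P' :=
    Nat.Coprime.pow_left _ ((Nat.Prime.coprime_iff_not_dvd hl).2 hP')
  exact (pow_dvd_pow l (by omega)).trans (h3.dvd_of_dvd_mul_right h2)

/-- A relation between the jump functions of the `(P,1)`-cables of torus knots. -/
def Rel (T : Finset (ℕ × ℕ × ℕ)) (w : ℕ × ℕ × ℕ → ℝ) : Prop :=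
  ∀ x : ℝ, ∑ s ∈ T, w s * (J s.1 s.2.1 (s.2.2 * x) : ℝ) = 0

section iso

variable {T : Finset (ℕ × ℕ × ℕ)} {w : ℕ × ℕ × ℕ → ℝ} {l r a b P₀ : ℕ}

/-- Four evaluation points. -/
lemma isolate_four (hrel : Rel T w) (hl : l.Prime) (hr : r.Prime) (hlr : l ≠ r) (ha : 0 < a)
    (hb : 0 < b) (hP₀ : 0 < P₀) (hs : (l ^ a, r ^ b, P₀) ∈ T)
    {α₀ α₁ β₀ β₁ : ℕ} (hα₀ : 0 < α₀ ∧ α₀ < l ^ a ∧ Nat.Coprime α₀ l)
    (hα₁ : 0 < α₁ ∧ α₁ < l ^ a ∧ Nat.Coprime α₁ l)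
    (hβ₀ : 0 < β₀ ∧ β₀ < r ^ b ∧ Nat.Coprime β₀ r)
    (hβ₁ : 0 < β₁ ∧ β₁ < r ^ b ∧ Nat.Coprime β₁ r)
    (hα : α₀ ≡ α₁ [MOD l ^ (a - 1)]) (hβ : β₀ ≡ β₁ [MOD r ^ (b - 1)])
    (h11 : l ^ a * r ^ b ≤ α₁ * r ^ b + β₁ * l ^ a)
    (h10 : α₁ * r ^ b + β₀ * l ^ a < l ^ a * r ^ b)
    (h01 : α₀ * r ^ b + β₁ * l ^ a < l ^ a * r ^ b)
    (h00 : α₀ * r ^ b + β₀ * l ^ a < l ^ a * r ^ b) :
    w (l ^ a, r ^ b, P₀) = 0 ∨ ∃ s ∈ T, s ≠ (l ^ a, r ^ b, P₀) ∧ w s ≠ 0 ∧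
      l ^ a * r ^ b * P₀ ∣ s.1 * s.2.1 * s.2.2 ∧ l ^ a ∣ s.1 * s.2.1 ∧ r ^ b ∣ s.1 * s.2.1 := by
  by_contra hcon
  push Not at hcon
  obtain ⟨hw0, hcon⟩ := hcon
  obtain ⟨A, P₁, hP₁, hP₁e⟩ := Nat.exists_eq_pow_mul_and_not_dvd hP₀.ne' l hl.ne_one
  have hP₁0 : P₁ ≠ 0 := by rintro rfl; simp at hP₁
  obtain ⟨B, M, hM, hMe⟩ := Nat.exists_eq_pow_mul_and_not_dvd hP₁0 r hr.ne_one
  have hM0 : 0 < M := Nat.pos_of_ne_zero (by rintro rfl; simp at hM)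
  have hlM : Nat.Coprime l M := by
    rw [Nat.Prime.coprime_iff_not_dvd hl]
    intro h; exact hP₁ (hMe ▸ dvd_mul_of_dvd_right h _)
  have hrM : Nat.Coprime r M := (Nat.Prime.coprime_iff_not_dvd hr).2 hM
  obtain ⟨U, hU1, hU2, hU3, hU4⟩ := exists_points (A := A) (B := B) hl hr hlr ha hb hlM hrM hM0
  set N := l ^ (a + A) * r ^ (b + B) * M with hN
  have hNP : N = l ^ a * r ^ b * P₀ := by rw [hN, hP₁e, hMe, pow_add, pow_add]; ring
  have hN0 : 0 < N := by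
    rw [hN]; exact Nat.mul_pos (Nat.mul_pos (pow_pos hl.pos _) (pow_pos hr.pos _)) hM0
  -- values for the distinguished symbol
  have hcop : Nat.Coprime (l ^ a) (r ^ b) := Nat.Coprime.pow _ _ ((Nat.coprime_primes hl hr).2 hlr)
  have hval : ∀ α β : ℕ, 0 < α → α < l ^ a → 0 < β → β < r ^ b →
      J (l ^ a) (r ^ b) (P₀ * ((U α β : ℝ) / N)) =
        if α * r ^ b + β * l ^ a < l ^ a * r ^ b then 1 else -1 := by
    intro α β h1 h2 h3 h4
    rw [← J_value hcop h1 h2 h3 h4]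
    obtain ⟨k, hk⟩ := Nat.modEq_iff_dvd.1 (hU2 α β)
    have e1 : (((α * r ^ b + β * l ^ a : ℕ) : ℤ) : ℝ) - (((U α β : ℕ) : ℤ) : ℝ) =
        ((l ^ a * r ^ b : ℕ) : ℝ) * k := by exact_mod_cast hk
    have hla : ((l ^ a : ℕ) : ℝ) ≠ 0 := by exact_mod_cast (pow_pos hl.pos a).ne'
    have hrb : ((r ^ b : ℕ) : ℝ) ≠ 0 := by exact_mod_cast (pow_pos hr.pos b).ne'
    have hP0' : (P₀ : ℝ) ≠ 0 := by exact_mod_cast hP₀.ne'
    have e2 : (α : ℝ) / ((l ^ a : ℕ) : ℝ) + (β : ℝ) / ((r ^ b : ℕ) : ℝ) =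
        P₀ * ((U α β : ℝ) / N) + (k : ℝ) := by
      rw [hNP]
      have hN1 : ((l ^ a * r ^ b * P₀ : ℕ) : ℝ) = ((l ^ a : ℕ) : ℝ) * ((r ^ b : ℕ) : ℝ) * P₀ := by
        push_cast; ring
      have e3 : (α : ℝ) * ((r ^ b : ℕ) : ℝ) + β * ((l ^ a : ℕ) : ℝ) - U α β =
          ((l ^ a : ℕ) : ℝ) * ((r ^ b : ℕ) : ℝ) * k := by
        have := e1
        push_cast at this ⊢
        linarith
      rw [hN1]
      field_simp
      linarith
    rw [e2, J_add_int]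
  -- the four-point relation
  have h1 := hrel ((U α₀ β₀ : ℝ) / N)
  have h2 := hrel ((U α₁ β₀ : ℝ) / N)
  have h3 := hrel ((U α₀ β₁ : ℝ) / N)
  have h4 := hrel ((U α₁ β₁ : ℝ) / N)
  have h5 : ∑ s ∈ T, w s * ((J s.1 s.2.1 (s.2.2 * ((U α₀ β₀ : ℝ) / N)) : ℝ) -
      J s.1 s.2.1 (s.2.2 * ((U α₁ β₀ : ℝ) / N)) - J s.1 s.2.1 (s.2.2 * ((U α₀ β₁ : ℝ) / N)) +
      J s.1 s.2.1 (s.2.2 * ((U α₁ β₁ : ℝ) / N))) = 0 := by
    have e : ∀ s ∈ T, w s * ((J s.1 s.2.1 (s.2.2 * ((U α₀ β₀ : ℝ) / N)) : ℝ) -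
      J s.1 s.2.1 (s.2.2 * ((U α₁ β₀ : ℝ) / N)) - J s.1 s.2.1 (s.2.2 * ((U α₀ β₁ : ℝ) / N)) +
      J s.1 s.2.1 (s.2.2 * ((U α₁ β₁ : ℝ) / N))) =
      w s * (J s.1 s.2.1 (s.2.2 * ((U α₀ β₀ : ℝ) / N)) : ℝ) -
      w s * J s.1 s.2.1 (s.2.2 * ((U α₁ β₀ : ℝ) / N)) -
      w s * J s.1 s.2.1 (s.2.2 * ((U α₀ β₁ : ℝ) / N)) +
      w s * J s.1 s.2.1 (s.2.2 * ((U α₁ β₁ : ℝ) / N)) := fun s _ => by ring
    rw [Finset.sum_congr rfl e, Finset.sum_add_distrib, Finset.sum_sub_distrib,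
      Finset.sum_sub_distrib, h1, h2, h3, h4]
    ring
  rw [Finset.sum_eq_single_of_mem _ hs] at h5
  · simp only at h5
    rw [hval α₀ β₀ hα₀.1 hα₀.2.1 hβ₀.1 hβ₀.2.1, hval α₁ β₀ hα₁.1 hα₁.2.1 hβ₀.1 hβ₀.2.1,
      hval α₀ β₁ hα₀.1 hα₀.2.1 hβ₁.1 hβ₁.2.1, hval α₁ β₁ hα₁.1 hα₁.2.1 hβ₁.1 hβ₁.2.1,
      if_pos h00, if_pos h10, if_pos h01, if_neg (by omega)] at h5
    norm_num at h5
    exact hw0 h5
  · intro s hsT hne
    by_cases hws : w s = 0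
    · rw [hws, zero_mul]
    · have hcs := hcon s hsT hne hws
      by_cases hdN : N ∣ s.1 * s.2.1 * s.2.2
      · have hcs' := hcs (hNP ▸ hdN)
        -- one of the two directions is invisible
        by_cases hPl : l ^ (A + 1) ∣ s.2.2
        · have key : ∀ β, J s.1 s.2.1 (s.2.2 * ((U α₀ β : ℝ) / N)) =
              J s.1 s.2.1 (s.2.2 * ((U α₁ β : ℝ) / N)) := by
            intro β
            apply J_congr_mod hN0
            have h6 := (hU3 α₀ α₁ β hα).mul_left' s.2.2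
            refine h6.of_dvd ?_
            obtain ⟨c, hc⟩ := hPl
            refine ⟨c, ?_⟩
            rw [hc, hN]
            have : l ^ (a + A) = l ^ (A + 1) * l ^ (a - 1) := by
              rw [← pow_add]; congr 1; omega
            rw [this]; ring
          rw [key β₀, key β₁]; ring
        · by_cases hPr : r ^ (B + 1) ∣ s.2.2
          · have key : ∀ α, J s.1 s.2.1 (s.2.2 * ((U α β₀ : ℝ) / N)) =
                J s.1 s.2.1 (s.2.2 * ((U α β₁ : ℝ) / N)) := by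
              intro α
              apply J_congr_mod hN0
              have h6 := (hU4 α β₀ β₁ hβ).mul_left' s.2.2
              refine h6.of_dvd ?_
              obtain ⟨c, hc⟩ := hPr
              refine ⟨c, ?_⟩
              rw [hc, hN]
              have : r ^ (b + B) = r ^ (B + 1) * r ^ (b - 1) := by
                rw [← pow_add]; congr 1; omega
              rw [this]; ring
            rw [key α₀, key α₁]; ring
          · exfalso
            have d1 : l ^ (a + A) ∣ s.1 * s.2.1 * s.2.2 :=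
              (Dvd.intro _ (by rw [hN, mul_assoc])).trans hdN
            have d2 : r ^ (b + B) ∣ s.1 * s.2.1 * s.2.2 :=
              (Dvd.intro (l ^ (a + A) * M) (by rw [hN]; ring)).trans hdN
            exact hcs' (pow_dvd_of hl d1 hPl) (pow_dvd_of hr d2 hPr)
      · have z : ∀ α β, Nat.Coprime α l → Nat.Coprime β r →
            J s.1 s.2.1 (s.2.2 * ((U α β : ℝ) / N)) = 0 := by
          intro α β h6 h7
          by_contra h8
          exact hdN (dvd_of_ne_zero hN0 (hU1 α β h6 h7) h8)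
        rw [z _ _ hα₀.2.2 hβ₀.2.2, z _ _ hα₁.2.2 hβ₀.2.2, z _ _ hα₀.2.2 hβ₁.2.2,
          z _ _ hα₁.2.2 hβ₁.2.2]
        simp

/-- Two evaluation points. -/
lemma isolate_two (hrel : Rel T w) (hl : l.Prime) (hr : r.Prime) (hlr : l ≠ r) (ha : 0 < a)
    (hb : 0 < b) (hP₀ : 0 < P₀) (hs : (l ^ a, r ^ b, P₀) ∈ T)
    {α β₀ β₁ : ℕ} (hα : 0 < α ∧ α < l ^ a ∧ Nat.Coprime α l)
    (hβ₀ : 0 < β₀ ∧ β₀ < r ^ b ∧ Nat.Coprime β₀ r)
    (hβ₁ : 0 < β₁ ∧ β₁ < r ^ b ∧ Nat.Coprime β₁ r) (hβ : β₀ ≡ β₁ [MOD r ^ (b - 1)])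
    (h1' : l ^ a * r ^ b ≤ α * r ^ b + β₁ * l ^ a)
    (h0' : α * r ^ b + β₀ * l ^ a < l ^ a * r ^ b) :
    w (l ^ a, r ^ b, P₀) = 0 ∨ ∃ s ∈ T, s ≠ (l ^ a, r ^ b, P₀) ∧ w s ≠ 0 ∧
      l ^ a * r ^ b * P₀ ∣ s.1 * s.2.1 * s.2.2 ∧ r ^ b ∣ s.1 * s.2.1 := by
  by_contra hcon
  push Not at hcon
  obtain ⟨hw0, hcon⟩ := hcon
  obtain ⟨A, P₁, hP₁, hP₁e⟩ := Nat.exists_eq_pow_mul_and_not_dvd hP₀.ne' l hl.ne_one
  have hP₁0 : P₁ ≠ 0 := by rintro rfl; simp at hP₁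
  obtain ⟨B, M, hM, hMe⟩ := Nat.exists_eq_pow_mul_and_not_dvd hP₁0 r hr.ne_one
  have hM0 : 0 < M := Nat.pos_of_ne_zero (by rintro rfl; simp at hM)
  have hlM : Nat.Coprime l M := by
    rw [Nat.Prime.coprime_iff_not_dvd hl]
    intro h; exact hP₁ (hMe ▸ dvd_mul_of_dvd_right h _)
  have hrM : Nat.Coprime r M := (Nat.Prime.coprime_iff_not_dvd hr).2 hM
  obtain ⟨U, hU1, hU2, hU3, hU4⟩ := exists_points (A := A) (B := B) hl hr hlr ha hb hlM hrM hM0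
  set N := l ^ (a + A) * r ^ (b + B) * M with hN
  have hNP : N = l ^ a * r ^ b * P₀ := by rw [hN, hP₁e, hMe, pow_add, pow_add]; ring
  have hN0 : 0 < N := by
    rw [hN]; exact Nat.mul_pos (Nat.mul_pos (pow_pos hl.pos _) (pow_pos hr.pos _)) hM0
  have hcop : Nat.Coprime (l ^ a) (r ^ b) := Nat.Coprime.pow _ _ ((Nat.coprime_primes hl hr).2 hlr)
  have hval : ∀ α β : ℕ, 0 < α → α < l ^ a → 0 < β → β < r ^ b →
      J (l ^ a) (r ^ b) (P₀ * ((U α β : ℝ) / N)) =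
        if α * r ^ b + β * l ^ a < l ^ a * r ^ b then 1 else -1 := by
    intro α β h1 h2 h3 h4
    rw [← J_value hcop h1 h2 h3 h4]
    obtain ⟨k, hk⟩ := Nat.modEq_iff_dvd.1 (hU2 α β)
    have e1 : (((α * r ^ b + β * l ^ a : ℕ) : ℤ) : ℝ) - (((U α β : ℕ) : ℤ) : ℝ) =
        ((l ^ a * r ^ b : ℕ) : ℝ) * k := by exact_mod_cast hk
    have hla : ((l ^ a : ℕ) : ℝ) ≠ 0 := by exact_mod_cast (pow_pos hl.pos a).ne'
    have hrb : ((r ^ b : ℕ) : ℝ) ≠ 0 := by exact_mod_cast (pow_pos hr.pos b).ne'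
    have hP0' : (P₀ : ℝ) ≠ 0 := by exact_mod_cast hP₀.ne'
    have e2 : (α : ℝ) / ((l ^ a : ℕ) : ℝ) + (β : ℝ) / ((r ^ b : ℕ) : ℝ) =
        P₀ * ((U α β : ℝ) / N) + (k : ℝ) := by
      rw [hNP]
      have hN1 : ((l ^ a * r ^ b * P₀ : ℕ) : ℝ) = ((l ^ a : ℕ) : ℝ) * ((r ^ b : ℕ) : ℝ) * P₀ := by
        push_cast; ring
      have e3 : (α : ℝ) * ((r ^ b : ℕ) : ℝ) + β * ((l ^ a : ℕ) : ℝ) - U α β =
          ((l ^ a : ℕ) : ℝ) * ((r ^ b : ℕ) : ℝ) * k := by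
        have := e1
        push_cast at this ⊢
        linarith
      rw [hN1]
      field_simp
      linarith
    rw [e2, J_add_int]
  have h1 := hrel ((U α β₀ : ℝ) / N)
  have h2 := hrel ((U α β₁ : ℝ) / N)
  have h5 : ∑ s ∈ T, w s * ((J s.1 s.2.1 (s.2.2 * ((U α β₀ : ℝ) / N)) : ℝ) -
      J s.1 s.2.1 (s.2.2 * ((U α β₁ : ℝ) / N))) = 0 := by
    simp_rw [mul_sub]
    rw [Finset.sum_sub_distrib, h1, h2, sub_zero]
  rw [Finset.sum_eq_single_of_mem _ hs] at h5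
  · simp only at h5
    rw [hval α β₀ hα.1 hα.2.1 hβ₀.1 hβ₀.2.1, hval α β₁ hα.1 hα.2.1 hβ₁.1 hβ₁.2.1,
      if_pos h0', if_neg (by omega)] at h5
    norm_num at h5
    exact hw0 h5
  · intro s hsT hne
    by_cases hws : w s = 0
    · rw [hws, zero_mul]
    · have hcs := hcon s hsT hne hws
      by_cases hdN : N ∣ s.1 * s.2.1 * s.2.2
      · have hcs' := hcs (hNP ▸ hdN)
        by_cases hPr : r ^ (B + 1) ∣ s.2.2
        · have key : J s.1 s.2.1 (s.2.2 * ((U α β₀ : ℝ) / N)) =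
              J s.1 s.2.1 (s.2.2 * ((U α β₁ : ℝ) / N)) := by
            apply J_congr_mod hN0
            have h6 := (hU4 α β₀ β₁ hβ).mul_left' s.2.2
            refine h6.of_dvd ?_
            obtain ⟨c, hc⟩ := hPr
            refine ⟨c, ?_⟩
            rw [hc, hN]
            have : r ^ (b + B) = r ^ (B + 1) * r ^ (b - 1) := by
              rw [← pow_add]; congr 1; omega
            rw [this]; ring
          rw [key]; ring
        · exfalso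
          have d2 : r ^ (b + B) ∣ s.1 * s.2.1 * s.2.2 :=
            (Dvd.intro (l ^ (a + A) * M) (by rw [hN]; ring)).trans hdN
          exact hcs' (pow_dvd_of hr d2 hPr)
      · have z : ∀ β, Nat.Coprime β r → J s.1 s.2.1 (s.2.2 * ((U α β : ℝ) / N)) = 0 := by
          intro β h7
          by_contra h8
          exact hdN (dvd_of_ne_zero hN0 (hU1 α β hα.2.2 h7) h8)
        rw [z _ hβ₀.2.2, z _ hβ₁.2.2]
        simp

end iso

end Pool.Agent.TH670.KN
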