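import Mathlib
import Pool.Agent.TH670.KN.Iso
set_option autoImplicit false

/-!
# The jump functions of the cables `T(p,q)_(P,1)`, `p` and `q` prime powers, are independent
-/

namespace Pool.Agent.TH670.KN

open Finset

/-- four numbers for odd prime powers and for powers of two -/
structure Pts (l a p : ℕ) (x₀ x₁ : ℕ) : Prop where
  pos₀ : 0 < x₀
  lt₀ : x₀ < p
  cop₀ : Nat.Coprime x₀ l
  pos₁ : 0 < x₁
  lt₁ : x₁ < p
  cop₁ : Nat.Coprime x₁ l
  cong : x₀ ≡ x₁ [MOD l ^ (a - 1)]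

lemma pts_odd {l a k : ℕ} (hl : l.Prime) (ha : 0 < a) (hlo : l ≠ 2) (hk : l ^ (a - 1) = 2 * k + 1) :
    ∃ m, l = 2 * m + 1 ∧ 1 ≤ m ∧ l ^ a = (2 * m + 1) * (2 * k + 1) ∧
      Pts l a (l ^ a) (k + 1) (2 * m * k + m + k + 1) := by
  have hodd : Odd l := hl.odd_of_ne_two hlo
  obtain ⟨m, hm⟩ := hodd
  have hm1 : 1 ≤ m := by
    have := hl.two_le; omega
  have hla : l ^ a = (2 * m + 1) * (2 * k + 1) := by
    have : l ^ a = l * l ^ (a - 1) := by rw [← pow_succ']; congr 1; omega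
    rw [this, hk, hm]
  refine ⟨m, hm, hm1, hla, ?_⟩
  have hexp : (2 * m + 1) * (2 * k + 1) = 4 * (m * k) + 2 * m + 2 * k + 1 := by ring
  have hmk : k ≤ m * k := Nat.le_mul_of_pos_left k (by omega)
  have hdvd : l ∣ l ^ a := dvd_pow_self l (by omega)
  refine ⟨by omega, ?_, ?_, by omega, ?_, ?_, ?_⟩
  · rw [hla, hexp]; omega
  · rcases Nat.lt_or_ge 1 a with h1 | h1
    · -- `2 (k+1) ≡ 1 mod l`
      have hd : l ∣ 2 * k + 1 := by rw [← hk]; exact dvd_pow_self l (by omega)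
      rw [Nat.coprime_comm, Nat.Prime.coprime_iff_not_dvd hl]
      intro h
      have h2 : l ∣ 2 * (k + 1) - (2 * k + 1) := Nat.dvd_sub (dvd_mul_of_dvd_right h 2) hd
      have h3 : 2 * (k + 1) - (2 * k + 1) = 1 := by omega
      rw [h3, Nat.dvd_one] at h2
      exact hl.ne_one h2
    · have ha1 : a = 1 := by omega
      subst ha1
      simp only [Nat.sub_self, pow_zero] at hk
      have : k = 0 := by omega
      subst this
      simp
  · rw [hla, hexp]
    have : 2 * m * k = 2 * (m * k) := by ring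
    omega
  · -- `2 x₁ = l ^ a + 1`
    rw [Nat.coprime_comm, Nat.Prime.coprime_iff_not_dvd hl]
    intro h
    have e : 2 * (2 * m * k + m + k + 1) = l ^ a + 1 := by rw [hla]; ring
    have h2 : l ∣ l ^ a + 1 - l ^ a := Nat.dvd_sub (e ▸ dvd_mul_of_dvd_right h 2) hdvd
    rw [Nat.add_sub_cancel_left, Nat.dvd_one] at h2
    exact hl.ne_one h2
  · rw [hk]
    have e : 2 * m * k + m + k + 1 = (k + 1) + (2 * k + 1) * m := by ring
    rw [e]
    exact (Nat.ModEq.symm (by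
      have := Nat.add_mul_mod_self_left (k + 1) (2 * k + 1) m
      exact this))

lemma pts_even {a : ℕ} (ha : 2 ≤ a) : ∃ k, 1 ≤ k ∧ 2 ^ a = 4 * k ∧ Pts 2 a (2 ^ a) 1 (2 * k + 1) := by
  have h1 : 2 ^ a = 4 * 2 ^ (a - 2) := by
    have : (4 : ℕ) = 2 ^ 2 := rfl
    rw [this, ← pow_add]; congr 1; omega
  have h2 : 2 ^ (a - 1) = 2 * 2 ^ (a - 2) := by
    rw [← pow_succ']; congr 1; omega
  refine ⟨2 ^ (a - 2), Nat.one_le_two_pow, h1, ?_⟩
  have hk : 1 ≤ 2 ^ (a - 2) := Nat.one_le_two_pow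
  refine ⟨one_pos, by omega, Nat.coprime_one_left 2, by omega, by omega, ?_, ?_⟩
  · rw [Nat.coprime_two_right]
    exact ⟨_, rfl⟩
  · rw [h2]
    exact (Nat.ModEq.symm (by
      have := Nat.add_mul_mod_self_left 1 (2 * 2 ^ (a - 2)) 1
      rw [mul_one, add_comm] at this
      exact this))

lemma key_X {p R : ℕ} (hp : 3 ≤ p) (hR : 3 ≤ R) (h5 : 5 ≤ p ∨ 5 ≤ R) : R + 2 * p + 1 ≤ p * R := by
  rcases h5 with h5 | h5
  · obtain ⟨x, rfl⟩ := Nat.exists_eq_add_of_le h5
    obtain ⟨y, rfl⟩ := Nat.exists_eq_add_of_le hR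
    have : (5 + x) * (3 + y) = 15 + 3 * x + 5 * y + x * y := by ring
    rw [this]; omega
  · obtain ⟨x, rfl⟩ := Nat.exists_eq_add_of_le hp
    obtain ⟨y, rfl⟩ := Nat.exists_eq_add_of_le h5
    have : (3 + x) * (5 + y) = 15 + 5 * x + 3 * y + x * y := by ring
    rw [this]; omega

lemma key_odd (m n t u : ℕ) (hm1 : 1 ≤ m) (hn1 : 1 ≤ n) (hne : m ≠ n) :
    (2 * m * t + m + t + 1) * ((2 * n + 1) * (2 * u + 1)) +
      (u + 1) * ((2 * m + 1) * (2 * t + 1)) <
    (2 * m + 1) * (2 * t + 1) * ((2 * n + 1) * (2 * u + 1)) := by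
  obtain ⟨p, hpdef⟩ : ∃ p, p = (2 * m + 1) * (2 * t + 1) := ⟨_, rfl⟩
  have hexp : (2 * m + 1) * (2 * t + 1) = 4 * (m * t) + 2 * m + 2 * t + 1 := by ring
  have hp : 3 ≤ p := by rw [hpdef, hexp]; omega
  obtain ⟨R, hR⟩ : ∃ R, R = 2 * n + 1 := ⟨_, rfl⟩
  obtain ⟨S, hS⟩ : ∃ S, S = 2 * u + 1 := ⟨_, rfl⟩
  have hS1 : 1 ≤ S := by omega
  have hR3 : 3 ≤ R := by omega
  have h5 : 5 ≤ p ∨ 5 ≤ R := by
    rcases Nat.lt_or_ge m 2 with h | h
    · right; omega
    · left; rw [hpdef, hexp]; omega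
  have hX := key_X hp hR3 h5
  have hx : 2 * (2 * m * t + m + t + 1) = p + 1 := by rw [hpdef]; ring
  have hu : 2 * (u + 1) = S + 1 := by omega
  rw [← hpdef, ← hR, ← hS]
  obtain ⟨x, hxx⟩ : ∃ x, x = 2 * m * t + m + t + 1 := ⟨_, rfl⟩
  obtain ⟨v, hvv⟩ : ∃ v, v = u + 1 := ⟨_, rfl⟩
  rw [← hxx] at hx ⊢
  rw [← hvv] at hu ⊢
  have h6 : S * (R + 2 * p + 1) ≤ S * (p * R) := Nat.mul_le_mul_left S hX
  have h7 : p ≤ S * p := Nat.le_mul_of_pos_left p hS1
  have h8 : S * (R + 2 * p + 1) = R * S + S * p + S * p + S := by ring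
  have h9 : S * (p * R) = p * (R * S) := by ring
  have h10 : 2 * (x * (R * S) + v * p) = p * (R * S) + R * S + S * p + p := by
    calc 2 * (x * (R * S) + v * p) = (2 * x) * (R * S) + (2 * v) * p := by ring
      _ = (p + 1) * (R * S) + (S + 1) * p := by rw [hx, hu]
      _ = p * (R * S) + R * S + S * p + p := by ring
  omega

/-- Existence of the four points. -/
lemma exists_four {l r a b : ℕ} (hl : l.Prime) (hr : r.Prime) (hlr : l ≠ r) (ha : 0 < a)
    (hb : 0 < b) (h2l : l ^ a ≠ 2) (h2r : r ^ b ≠ 2) (h34 : ¬ (l ^ a = 3 ∧ r ^ b = 4))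
    (h43 : ¬ (l ^ a = 4 ∧ r ^ b = 3)) :
    ∃ α₀ α₁ β₀ β₁, Pts l a (l ^ a) α₀ α₁ ∧ Pts r b (r ^ b) β₀ β₁ ∧
      l ^ a * r ^ b ≤ α₁ * r ^ b + β₁ * l ^ a ∧ α₁ * r ^ b + β₀ * l ^ a < l ^ a * r ^ b ∧
      α₀ * r ^ b + β₁ * l ^ a < l ^ a * r ^ b ∧ α₀ * r ^ b + β₀ * l ^ a < l ^ a * r ^ b := by
  by_cases hl2 : l = 2
  · -- `l = 2`, `r` odd
    subst hl2
    have ha2 : 2 ≤ a := by
      rcases Nat.lt_or_ge a 2 with h | h
      · have : a = 1 := by omega
        subst this; simp at h2l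
      · exact h
    obtain ⟨k, hk1, hk2, hP⟩ := pts_even ha2
    have hro : r ≠ 2 := fun h => hlr h.symm
    have hrodd : Odd (r ^ (b - 1)) := (hr.odd_of_ne_two hro).pow
    obtain ⟨t, ht⟩ := hrodd
    obtain ⟨m, hm, hm1, hrb, hQ⟩ := pts_odd hr hb hro ht
    refine ⟨1, 2 * k + 1, t + 1, 2 * m * t + m + t + 1, hP, hQ, ?_, ?_, ?_, ?_⟩
    · rw [hk2, hrb]; nlinarith [Nat.zero_le (m * t), Nat.zero_le (k * m * t)]
    · rw [hk2, hrb]
      -- `(2k+1) r^b + (t+1) 4k < 4k r^b`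
      have h3 : ¬ (k = 1 ∧ m = 1 ∧ t = 0) := by
        rintro ⟨rfl, rfl, rfl⟩
        exact h43 ⟨by rw [hk2], by rw [hrb]⟩
      rcases Nat.lt_or_ge k 2 with hk | hk
      · have : k = 1 := by omega
        subst this
        rcases Nat.lt_or_ge m 2 with hm' | hm'
        · have : m = 1 := by omega
          subst this
          have : 1 ≤ t := by
            by_contra h; exact h3 ⟨rfl, rfl, by omega⟩
          nlinarith
        · nlinarith [Nat.zero_le (m * t), Nat.mul_le_mul_right t hm']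
      · nlinarith [Nat.mul_le_mul hk hm1, Nat.mul_le_mul hk (Nat.mul_le_mul hm1 (le_refl t)),
          Nat.zero_le (k * t), Nat.mul_le_mul_right t hk, Nat.mul_le_mul_right t hm1,
          Nat.mul_le_mul_right (k * t) hm1, Nat.mul_le_mul_right k hm1]
    · rw [hk2, hrb]
      nlinarith [Nat.zero_le (m * t), Nat.mul_le_mul hk1 hm1, Nat.mul_le_mul_right t hm1,
        Nat.mul_le_mul_right (m * t) hk1, Nat.mul_le_mul_right m hk1, Nat.mul_le_mul_right t hk1]
    · rw [hk2, hrb]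
      nlinarith [Nat.zero_le (m * t), Nat.mul_le_mul hk1 hm1, Nat.mul_le_mul_right t hm1,
        Nat.mul_le_mul_right (m * t) hk1, Nat.mul_le_mul_right m hk1, Nat.mul_le_mul_right t hk1,
        Nat.mul_le_mul_right (k * t) hm1, Nat.mul_le_mul_right k hm1]
  · by_cases hr2 : r = 2
    · subst hr2
      have hb2 : 2 ≤ b := by
        rcases Nat.lt_or_ge b 2 with h | h
        · have : b = 1 := by omega
          subst this; simp at h2r
        · exact h
      obtain ⟨k, hk1, hk2, hP⟩ := pts_even hb2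
      have hlodd : Odd (l ^ (a - 1)) := (hl.odd_of_ne_two hl2).pow
      obtain ⟨t, ht⟩ := hlodd
      obtain ⟨m, hm, hm1, hla, hQ⟩ := pts_odd hl ha hl2 ht
      refine ⟨t + 1, 2 * m * t + m + t + 1, 1, 2 * k + 1, hQ, hP, ?_, ?_, ?_, ?_⟩
      · rw [hk2, hla]; nlinarith [Nat.zero_le (m * t), Nat.zero_le (k * m * t)]
      · rw [hk2, hla]
        nlinarith [Nat.zero_le (m * t), Nat.mul_le_mul hk1 hm1, Nat.mul_le_mul_right t hm1,
          Nat.mul_le_mul_right (m * t) hk1, Nat.mul_le_mul_right m hk1, Nat.mul_le_mul_right t hk1]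
      · rw [hk2, hla]
        have h3 : ¬ (k = 1 ∧ m = 1 ∧ t = 0) := by
          rintro ⟨rfl, rfl, rfl⟩
          exact h34 ⟨by rw [hla], by rw [hk2]⟩
        rcases Nat.lt_or_ge k 2 with hk | hk
        · have : k = 1 := by omega
          subst this
          rcases Nat.lt_or_ge m 2 with hm' | hm'
          · have : m = 1 := by omega
            subst this
            have : 1 ≤ t := by
              by_contra h; exact h3 ⟨rfl, rfl, by omega⟩
            nlinarith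
          · nlinarith [Nat.zero_le (m * t), Nat.mul_le_mul_right t hm']
        · nlinarith [Nat.mul_le_mul hk hm1, Nat.mul_le_mul hk (Nat.mul_le_mul hm1 (le_refl t)),
            Nat.zero_le (k * t), Nat.mul_le_mul_right t hk, Nat.mul_le_mul_right t hm1,
            Nat.mul_le_mul_right (k * t) hm1, Nat.mul_le_mul_right k hm1]
      · rw [hk2, hla]
        nlinarith [Nat.zero_le (m * t), Nat.mul_le_mul hk1 hm1, Nat.mul_le_mul_right t hm1,
          Nat.mul_le_mul_right (m * t) hk1, Nat.mul_le_mul_right m hk1, Nat.mul_le_mul_right t hk1,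
          Nat.mul_le_mul_right (k * t) hm1, Nat.mul_le_mul_right k hm1]
    · -- both odd
      have hlodd : Odd (l ^ (a - 1)) := (hl.odd_of_ne_two hl2).pow
      obtain ⟨t, ht⟩ := hlodd
      obtain ⟨m, hm, hm1, hla, hQ⟩ := pts_odd hl ha hl2 ht
      have hrodd : Odd (r ^ (b - 1)) := (hr.odd_of_ne_two hr2).pow
      obtain ⟨u, hu⟩ := hrodd
      obtain ⟨n, hn, hn1, hrb, hR⟩ := pts_odd hr hb hr2 hu
      have hne : m ≠ n := fun h => hlr (by rw [hm, hn, h])
      have key := key_odd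
      refine ⟨t + 1, 2 * m * t + m + t + 1, u + 1, 2 * n * u + n + u + 1, hQ, hR, ?_, ?_, ?_, ?_⟩
      · rw [hla, hrb]; nlinarith [Nat.zero_le (m * t * n * u)]
      · rw [hla, hrb]; exact key m n t u hm1 hn1 hne
      · rw [hla, hrb]
        have := key n m u t hn1 hm1 hne.symm
        nlinarith [this]
      · rw [hla, hrb]
        have := key m n t u hm1 hn1 hne
        have h9 : (t + 1) * ((2 * n + 1) * (2 * u + 1)) ≤
            (2 * m * t + m + t + 1) * ((2 * n + 1) * (2 * u + 1)) :=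
          Nat.mul_le_mul_right _ (by nlinarith [Nat.zero_le (m * t)])
        omega

end Pool.Agent.TH670.KN
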