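import Mathlib
import Pool.Agent.TH670.KN.Core
set_option autoImplicit false

/-!
# Independence of the jump functions of the cables of `T(p,q)`, `p` and `q` prime powers
-/

namespace Pool.Agent.TH670.KN

open Finset

/-- symbols `(p, q, P)` with coprime prime powers `p < q` and `P ≥ 1` -/
def IsSym (s : ℕ × ℕ × ℕ) : Prop :=
  s.1 < s.2.1 ∧ IsPrimePow s.1 ∧ IsPrimePow s.2.1 ∧ Nat.Coprime s.1 s.2.1 ∧ 0 < s.2.2

lemma split_dvd {p q l r a b : ℕ} (hp : IsPrimePow p) (hq : IsPrimePow q) (hc : Nat.Coprime p q)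
    (hl : l.Prime) (hr : r.Prime) (hlr : l ≠ r) (ha : 0 < a) (hb : 0 < b)
    (h1 : l ^ a ∣ p * q) (h2 : r ^ b ∣ p * q) :
    (l ^ a ∣ p ∧ r ^ b ∣ q) ∨ (l ^ a ∣ q ∧ r ^ b ∣ p) := by
  have hla : IsPrimePow (l ^ a) := hl.isPrimePow.pow ha.ne'
  have hrb : IsPrimePow (r ^ b) := hr.isPrimePow.pow hb.ne'
  have hno : ∀ t : ℕ, IsPrimePow t → l ^ a ∣ t → r ^ b ∣ t → False := by
    intro t ht h3 h4
    rw [isPrimePow_nat_iff] at ht
    obtain ⟨u, k, hu, _, rfl⟩ := ht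
    have h5 : l ∣ u ^ k := (dvd_pow_self l ha.ne').trans h3
    have h6 : r ∣ u ^ k := (dvd_pow_self r hb.ne').trans h4
    have h7 := (Nat.prime_dvd_prime_iff_eq hl hu).1 (hl.dvd_of_dvd_pow h5)
    have h8 := (Nat.prime_dvd_prime_iff_eq hr hu).1 (hr.dvd_of_dvd_pow h6)
    exact hlr (h7.trans h8.symm)
  rcases (Nat.Coprime.isPrimePow_dvd_mul hc hla).1 h1 with h3 | h3 <;>
    rcases (Nat.Coprime.isPrimePow_dvd_mul hc hrb).1 h2 with h4 | h4
  · exact (hno p hp h3 h4).elim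
  · exact Or.inl ⟨h3, h4⟩
  · exact Or.inr ⟨h3, h4⟩
  · exact (hno q hq h3 h4).elim

theorem indep {T : Finset (ℕ × ℕ × ℕ)} {w : ℕ × ℕ × ℕ → ℝ} (hT : ∀ s ∈ T, IsSym s)
    (hrel : Rel T w) : ∀ s ∈ T, w s = 0 := by
  classical
  by_contra hcon
  push Not at hcon
  obtain ⟨t₀, ht₀, hwt₀⟩ := hcon
  set T' := T.filter (fun s => w s ≠ 0) with hT'
  by_cases hgood : ∃ s ∈ T', s.1 ≠ 2 ∧ ¬ (s.1 = 3 ∧ s.2.1 = 4)
  · -- a good symbol
    set G' := T'.filter (fun s => s.1 ≠ 2 ∧ ¬ (s.1 = 3 ∧ s.2.1 = 4)) with hG'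
    have hne : G'.Nonempty := by
      obtain ⟨s, hs, h⟩ := hgood
      exact ⟨s, mem_filter.2 ⟨hs, h⟩⟩
    obtain ⟨s₁, hs₁, hmax₁⟩ := Finset.exists_max_image G' (fun s => s.1 * s.2.1) hne
    have hne₂ : (G'.filter (fun s => s.1 * s.2.1 = s₁.1 * s₁.2.1)).Nonempty :=
      ⟨s₁, mem_filter.2 ⟨hs₁, rfl⟩⟩
    obtain ⟨s₀, hs₀, hmax₂⟩ := Finset.exists_max_image _ (fun s : ℕ × ℕ × ℕ => s.2.2) hne₂
    obtain ⟨hs₀G, hs₀n⟩ := mem_filter.1 hs₀
    obtain ⟨hs₀T', hs₀2, hs₀34⟩ := mem_filter.1 hs₀G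
    obtain ⟨hs₀T, hs₀w⟩ := mem_filter.1 hs₀T'
    obtain ⟨hlt, hpp, hqq, hcc, hP⟩ := hT s₀ hs₀T
    obtain ⟨p₀, q₀, P₀⟩ := s₀
    simp only at hs₀n hs₀2 hs₀34 hlt hpp hqq hcc hP hmax₂
    rw [isPrimePow_nat_iff] at hpp hqq
    obtain ⟨l, a, hl, ha, rfl⟩ := hpp
    obtain ⟨r, b, hr, hb, rfl⟩ := hqq
    have hlr : l ≠ r := by
      rintro rfl
      have h1 : l ∣ Nat.gcd (l ^ a) (l ^ b) :=
        Nat.dvd_gcd (dvd_pow_self l ha.ne') (dvd_pow_self l hb.ne')
      rw [hcc, Nat.dvd_one] at h1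
      exact hl.ne_one h1
    have hla2 : 2 ≤ l ^ a := by
      calc 2 ≤ l := hl.two_le
        _ = l ^ 1 := (pow_one l).symm
        _ ≤ l ^ a := Nat.pow_le_pow_right hl.pos ha
    have hla3 : 3 ≤ l ^ a := by omega
    have hrb4 : 4 ≤ r ^ b := by omega
    obtain ⟨α₀, α₁, β₀, β₁, hα, hβ, e1, e2, e3, e4⟩ := exists_four hl hr hlr ha hb hs₀2 (by omega)
      hs₀34 (by omega)
    rcases isolate_four hrel hl hr hlr ha hb hP hs₀T ⟨hα.pos₀, hα.lt₀, hα.cop₀⟩
      ⟨hα.pos₁, hα.lt₁, hα.cop₁⟩ ⟨hβ.pos₀, hβ.lt₀, hβ.cop₀⟩ ⟨hβ.pos₁, hβ.lt₁, hβ.cop₁⟩ hα.cong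
      hβ.cong e1 e2 e3 e4 with h | ⟨s, hsT, hsne, hsw, hd, hd1, hd2⟩
    · exact hs₀w h
    · obtain ⟨slt, spp, sqq, scc, sP⟩ := hT s hsT
      have hsp2 : 2 ≤ s.1 := spp.one_lt
      have hsplit := split_dvd spp sqq scc hl hr hlr ha hb hd1 hd2
      have hsgood : s.1 ≠ 2 ∧ ¬ (s.1 = 3 ∧ s.2.1 = 4) := by
        constructor
        · intro h2
          rcases hsplit with ⟨h3, h4⟩ | ⟨h3, h4⟩
          · have := Nat.le_of_dvd (by omega) h3; omega
          · have := Nat.le_of_dvd (by omega) h4; omega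
        · rintro ⟨h2, h2'⟩
          rcases hsplit with ⟨h3, h4⟩ | ⟨h3, h4⟩
          · have h5 := Nat.le_of_dvd (by omega) h3
            have h6 := Nat.le_of_dvd (by omega) h4
            exact hs₀34 ⟨by omega, by omega⟩
          · have h6 := Nat.le_of_dvd (by omega) h4; omega
      have hsG : s ∈ G' := mem_filter.2 ⟨mem_filter.2 ⟨hsT, hsw⟩, hsgood⟩
      have hle := hmax₁ s hsG
      rw [← hs₀n] at hle
      rcases hsplit with ⟨h3, h4⟩ | ⟨h3, h4⟩
      · have h5 := Nat.le_of_dvd (by omega) h3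
        have h6 := Nat.le_of_dvd (by omega) h4
        have h7 : s.1 = l ^ a := by
          by_contra hne7
          have : l ^ a + 1 ≤ s.1 := by omega
          have h8 : (l ^ a + 1) * r ^ b ≤ s.1 * s.2.1 := Nat.mul_le_mul this h6
          have h9 : (l ^ a + 1) * r ^ b = l ^ a * r ^ b + r ^ b := by ring
          omega
        have h8 : s.2.1 = r ^ b := by
          rw [h7] at hle
          exact le_antisymm (Nat.le_of_mul_le_mul_left hle (by omega)) h6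
        rw [h7, h8] at hd
        have h9 : P₀ ∣ s.2.2 := (Nat.mul_dvd_mul_iff_left (by positivity)).1 hd
        have h10 := Nat.le_of_dvd sP h9
        have h11 := hmax₂ s (mem_filter.2 ⟨hsG, by rw [← hs₀n, h7, h8]⟩)
        apply hsne
        refine Prod.ext h7 (Prod.ext h8 ?_)
        simp only
        omega
      · have h5 := Nat.le_of_dvd (by omega) h3
        have h6 := Nat.le_of_dvd (by omega) h4
        have h8 : r ^ b * l ^ a < s.1 * s.2.1 := by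
          have h9 : r ^ b * (l ^ a + 1) ≤ s.1 * s.2.1 := Nat.mul_le_mul h6 (by omega)
          have h10 : r ^ b * (l ^ a + 1) = r ^ b * l ^ a + r ^ b := by ring
          omega
        have h9 : r ^ b * l ^ a = l ^ a * r ^ b := mul_comm _ _
        omega
  · push Not at hgood
    by_cases h12 : ∃ s ∈ T', s.1 = 3
    · -- the symbols of `T(3,4)`
      have hne : (T'.filter (fun s => s.1 = 3)).Nonempty := by
        obtain ⟨s, hs, h⟩ := h12; exact ⟨s, mem_filter.2 ⟨hs, h⟩⟩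
      obtain ⟨s₀, hs₀, hmax⟩ := Finset.exists_max_image _ (fun s : ℕ × ℕ × ℕ => s.2.2) hne
      obtain ⟨hs₀T', hs₀3⟩ := mem_filter.1 hs₀
      obtain ⟨hs₀T, hs₀w⟩ := mem_filter.1 hs₀T'
      have hs₀4 := (hgood s₀ hs₀T' (by omega)).2
      obtain ⟨hlt, hpp, hqq, hcc, hP⟩ := hT s₀ hs₀T
      obtain ⟨p₀, q₀, P₀⟩ := s₀
      simp only at hs₀3 hs₀4 hlt hpp hqq hcc hP hmax
      subst hs₀3
      subst hs₀4
      have e3 : (3 : ℕ) ^ 1 = 3 := rfl
      have e4 : (2 : ℕ) ^ 2 = 4 := rfl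
      rcases isolate_two (l := 3) (r := 2) (a := 1) (b := 2) (α := 1) (β₀ := 1) (β₁ := 3) hrel
        Nat.prime_three Nat.prime_two (by norm_num) one_pos two_pos hP (by rw [e3, e4]; exact hs₀T)
        ⟨one_pos, by norm_num, by norm_num⟩ ⟨one_pos, by norm_num, by norm_num⟩
        ⟨by norm_num, by norm_num, by norm_num⟩ (by decide) (by norm_num) (by norm_num) with
        h | ⟨s, hsT, hsne, hsw, hd, hd2⟩
      · rw [e3, e4] at h; exact hs₀w h
      · rw [e3, e4] at hd hsne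
        rw [e4] at hd2
        obtain ⟨slt, spp, sqq, scc, sP⟩ := hT s hsT
        have hsT' : s ∈ T' := mem_filter.2 ⟨hsT, hsw⟩
        by_cases hs2 : s.1 = 2
        · rw [hs2] at hd2 scc
          have h5 : 2 ∣ s.2.1 := by
            have : 2 * 2 ∣ 2 * s.2.1 := hd2
            exact (Nat.mul_dvd_mul_iff_left two_pos).1 this
          rw [Nat.Prime.coprime_iff_not_dvd Nat.prime_two] at scc
          exact scc h5
        · obtain ⟨h7, h8⟩ := hgood s hsT' hs2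
          rw [h7, h8] at hd
          have h9 : P₀ ∣ s.2.2 := (Nat.mul_dvd_mul_iff_left (by norm_num)).1 hd
          have h10 := Nat.le_of_dvd sP h9
          have h11 := hmax s (mem_filter.2 ⟨hsT', h7⟩)
          apply hsne
          refine Prod.ext h7 (Prod.ext h8 ?_)
          simp only
          omega
    · -- only symbols `(2, q, P)` are left
      push Not at h12
      have hall : ∀ s ∈ T', s.1 = 2 := by
        intro s hs
        by_contra h
        exact h12 s hs (hgood s hs h).1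
      have hne : T'.Nonempty := ⟨t₀, mem_filter.2 ⟨ht₀, hwt₀⟩⟩
      obtain ⟨s₁, hs₁, hmax₁⟩ := Finset.exists_max_image T' (fun s => s.2.1) hne
      have hne₂ : (T'.filter (fun s => s.2.1 = s₁.2.1)).Nonempty := ⟨s₁, mem_filter.2 ⟨hs₁, rfl⟩⟩
      obtain ⟨s₀, hs₀, hmax₂⟩ := Finset.exists_max_image _ (fun s : ℕ × ℕ × ℕ => s.2.2) hne₂
      obtain ⟨hs₀T', hs₀n⟩ := mem_filter.1 hs₀
      obtain ⟨hs₀T, hs₀w⟩ := mem_filter.1 hs₀T'
      have hs₀2 := hall s₀ hs₀T'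
      obtain ⟨hlt, hpp, hqq, hcc, hP⟩ := hT s₀ hs₀T
      obtain ⟨p₀, q₀, P₀⟩ := s₀
      simp only at hs₀2 hs₀n hlt hpp hqq hcc hP hmax₂
      subst hs₀2
      rw [isPrimePow_nat_iff] at hqq
      obtain ⟨r, b, hr, hb, rfl⟩ := hqq
      have hr2 : r ≠ 2 := by
        rintro rfl
        rw [Nat.Prime.coprime_iff_not_dvd Nat.prime_two] at hcc
        exact hcc (dvd_pow_self 2 hb.ne')
      have hrodd : Odd (r ^ (b - 1)) := (hr.odd_of_ne_two hr2).pow
      obtain ⟨t, ht⟩ := hrodd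
      obtain ⟨m, hm, hm1, hrb, hQ⟩ := pts_odd hr hb hr2 ht
      have e2 : (2 : ℕ) ^ 1 = 2 := rfl
      have hexp : (2 * m + 1) * (2 * t + 1) = 4 * (m * t) + 2 * m + 2 * t + 1 := by ring
      have hexp2 : 2 * m * t = 2 * (m * t) := by ring
      rcases isolate_two (l := 2) (r := r) (a := 1) (b := b) (α := 1) hrel
        Nat.prime_two hr hr2.symm one_pos hb hP (by rw [e2]; exact hs₀T)
        ⟨one_pos, by norm_num, by norm_num⟩ ⟨hQ.pos₀, hQ.lt₀, hQ.cop₀⟩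
        ⟨hQ.pos₁, hQ.lt₁, hQ.cop₁⟩ hQ.cong (by rw [e2, hrb, hexp]; omega)
        (by rw [e2, hrb, hexp]; omega) with
        h | ⟨s, hsT, hsne, hsw, hd, hd2⟩
      · rw [e2] at h; exact hs₀w h
      · rw [e2] at hd hsne
        obtain ⟨slt, spp, sqq, scc, sP⟩ := hT s hsT
        have hsT' : s ∈ T' := mem_filter.2 ⟨hsT, hsw⟩
        have h7 := hall s hsT'
        rw [h7] at hd hd2
        have hc2 : Nat.Coprime (r ^ b) 2 := hcc.symm
        have h5 : r ^ b ∣ s.2.1 := hc2.dvd_of_dvd_mul_left hd2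
        have h6 := Nat.le_of_dvd (by omega) h5
        have h6' := hmax₁ s hsT'
        have h8 : s.2.1 = r ^ b := by omega
        rw [h8] at hd
        have h9 : P₀ ∣ s.2.2 := (Nat.mul_dvd_mul_iff_left (by
          have := pow_pos hr.pos b; positivity)).1 hd
        have h10 := Nat.le_of_dvd sP h9
        have h11 := hmax₂ s (mem_filter.2 ⟨hsT', by omega⟩)
        apply hsne
        refine Prod.ext h7 (Prod.ext h8 ?_)
        simp only
        omega

end Pool.Agent.TH670.KN
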