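import Mathlib
import Pool.Agent.TH670.KN.Indep
set_option autoImplicit false

/-!
# Relations between the signature functions of iterated torus knots
-/

namespace Pool.Agent.TH670.KN

open Finset

/-- The symbols of the iterated torus knot given by the list `L` (last cabling first): for the
cabling with parameters `p, q` the triple `(min p q, max p q, P)`, where `P` is the product of the
winding numbers of the later cablings. The signature function is the sum of the functions
`x ↦ σ_(Px)(T(p,q))` over the symbols `(p, q, P)` of `syms L 1`. -/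
def syms : List (ℕ × ℕ) → ℕ → List (ℕ × ℕ × ℕ)
  | [], _ => []
  | (p, q) :: L, P => (min p q, max p q, P) :: syms L (p * P)

/-- Every cabling parameter `(p, q)` of the list is a pair of coprime prime powers, or `q = 1`. -/
def PrimePowers (L : List (ℕ × ℕ)) : Prop :=
  ∀ c ∈ L, (IsPrimePow c.1 ∧ IsPrimePow c.2 ∧ Nat.Coprime c.1 c.2) ∨ (0 < c.1 ∧ c.2 = 1)

lemma J_minmax (p q : ℕ) (x : ℝ) : J (min p q) (max p q) x = J p q x := by
  rcases le_total p q with h | h
  · rw [min_eq_left h, max_eq_right h]
  · rw [min_eq_right h, max_eq_left h, J_swap]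

lemma JK_syms (L : List (ℕ × ℕ)) (P : ℕ) (x : ℝ) :
    JK L (P * x) = ((syms L P).map fun s => J s.1 s.2.1 (s.2.2 * x)).sum := by
  induction L generalizing P with
  | nil => rfl
  | cons c L ih =>
    obtain ⟨p, q⟩ := c
    simp only [JK, syms, List.map_cons, List.sum_cons]
    rw [J_minmax, ← ih (p * P)]
    congr 2
    push_cast; ring

lemma syms_prop {L : List (ℕ × ℕ)} (hL : PrimePowers L) {P : ℕ} (hP : 0 < P) :
    ∀ s ∈ syms L P, s.1 = 1 ∨ IsSym s := by
  induction L generalizing P with
  | nil => intro s hs; simp [syms] at hs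
  | cons c L ih =>
    obtain ⟨p, q⟩ := c
    intro s hs
    simp only [syms, List.mem_cons] at hs
    have hc := hL (p, q) (by simp)
    simp only at hc
    have hp0 : 0 < p := by
      rcases hc with h | h
      · exact h.1.pos
      · exact h.1
    rcases hs with rfl | hs
    · rcases hc with ⟨h1, h2, h3⟩ | ⟨h1, h2⟩
      · right
        have hne : p ≠ q := by
          rintro rfl
          rw [Nat.coprime_self] at h3
          exact h1.ne_one h3
        refine ⟨by simpa using hne.symm, ?_, ?_, ?_, hP⟩
        · rcases le_total p q with h | h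
          · simpa [min_eq_left h] using h1
          · simpa [min_eq_right h] using h2
        · rcases le_total p q with h | h
          · simpa [max_eq_right h] using h2
          · simpa [max_eq_left h] using h1
        · rcases le_total p q with h | h
          · simpa [min_eq_left h, max_eq_right h] using h3
          · simpa [min_eq_right h, max_eq_left h] using h3.symm
      · left; subst h2
        simp only; omega
    · exact ih (fun c hc => hL c (by simp [hc])) (Nat.mul_pos hp0 hP) s hs

lemma cop_of_primePowers {L : List (ℕ × ℕ)} (hL : PrimePowers L) : Cop L := by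
  intro c hc
  rcases hL c hc with ⟨h1, _, h3⟩ | ⟨h1, h2⟩
  · exact ⟨h3, h1.pos⟩
  · exact ⟨by rw [h2]; exact Nat.coprime_one_right _, h1⟩

/-- All relations between the signature functions of iterated torus knots with prime power
parameters are formal. -/
theorem formal {ι : Type*} (S : Finset ι) (a : ι → ℝ) (K : ι → List (ℕ × ℕ))
    (hK : ∀ k ∈ S, PrimePowers (K k))
    (hfin : {x : ℝ | x ∈ Set.Ioo (0 : ℝ) 1 ∧ ∑ k ∈ S, a k * (sigK (K k) x : ℝ) ≠ 0}.Finite)
    (p q P : ℕ) (hp : 1 < p) : ∑ k ∈ S, a k * ((syms (K k) 1).count (p, q, P) : ℝ) = 0 := by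
  have hrel := jump_relation S a K (fun k hk => cop_of_primePowers (hK k hk)) hfin
  set all : Finset (ℕ × ℕ × ℕ) := S.biUnion (fun k => (syms (K k) 1).toFinset) with hall
  set T := all.filter (fun s => 1 < s.1) with hTdef
  set w : ℕ × ℕ × ℕ → ℝ := fun s => ∑ k ∈ S, a k * ((syms (K k) 1).count s : ℝ) with hw
  have hT : ∀ s ∈ T, IsSym s := by
    intro s hs
    obtain ⟨h1, h2⟩ := mem_filter.1 hs
    obtain ⟨k, hk, h3⟩ := mem_biUnion.1 h1
    rcases syms_prop (hK k hk) one_pos s (List.mem_toFinset.1 h3) with h4 | h4
    · omega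
    · exact h4
  have hR : Rel T w := by
    intro x
    have h1 := hrel x
    have h2 : ∀ k ∈ S, (JK (K k) x : ℝ) =
        ∑ s ∈ T, ((syms (K k) 1).count s : ℝ) * (J s.1 s.2.1 (s.2.2 * x) : ℝ) := by
      intro k hk
      have h3 := JK_syms (K k) 1 x
      rw [Nat.cast_one, one_mul] at h3
      rw [h3, Finset.sum_list_map_count]
      push_cast
      have h4 : ∑ s ∈ all, ((syms (K k) 1).count s : ℝ) * (J s.1 s.2.1 (s.2.2 * x) : ℝ) =
          ∑ s ∈ (syms (K k) 1).toFinset,
            ((syms (K k) 1).count s : ℝ) * (J s.1 s.2.1 (s.2.2 * x) : ℝ) := by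
        symm
        apply Finset.sum_subset
        · exact Finset.subset_biUnion_of_mem (fun k => (syms (K k) 1).toFinset) hk
        · intro s _ hs
          rw [List.mem_toFinset, ← List.count_eq_zero] at hs
          rw [hs]; simp
      have h5 : ∑ s ∈ T, ((syms (K k) 1).count s : ℝ) * (J s.1 s.2.1 (s.2.2 * x) : ℝ) =
          ∑ s ∈ all, ((syms (K k) 1).count s : ℝ) * (J s.1 s.2.1 (s.2.2 * x) : ℝ) := by
        rw [hTdef, Finset.sum_filter]
        refine Finset.sum_congr rfl fun s _ => ?_
        split_ifs with h6
        · rfl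
        · have : J s.1 s.2.1 (s.2.2 * x) = 0 := by
            unfold J
            rw [Finset.Ico_eq_empty (by omega), Finset.sum_empty]
          rw [this]; simp
      rw [h5, h4]
      refine Finset.sum_congr rfl fun s _ => ?_
      rw [nsmul_eq_mul]
      push_cast
      congr 2
      unfold List.count
      apply List.countP_congr
      intro y _
      simp
    have h3 : ∑ s ∈ T, w s * (J s.1 s.2.1 (s.2.2 * x) : ℝ) = ∑ k ∈ S, a k * (JK (K k) x : ℝ) := by
      simp_rw [hw, Finset.sum_mul]
      rw [Finset.sum_comm]
      refine Finset.sum_congr rfl fun k hk => ?_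
      rw [h2 k hk, Finset.mul_sum]
      refine Finset.sum_congr rfl fun s _ => ?_
      ring
    rw [h3, h1]
  have hind := indep hT hR
  by_cases hmem : (p, q, P) ∈ T
  · exact hind _ hmem
  · refine Finset.sum_eq_zero fun k hk => ?_
    have : (syms (K k) 1).count (p, q, P) = 0 := by
      rw [List.count_eq_zero]
      intro h
      apply hmem
      exact mem_filter.2 ⟨mem_biUnion.2 ⟨k, hk, List.mem_toFinset.2 h⟩, hp⟩
    rw [this]; simp

end Pool.Agent.TH670.KN
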